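import Mathlib
import Pool.Agent.Helper58.FH.Mean

/-!
# The mean ergodic theorem for boxes with both sides long
-/

set_option autoImplicit false

open MeasureTheory Filter Topology Finset
open scoped ENNReal InnerProductSpace ComplexConjugate

namespace Pool.Agent.Helper40.TMA

open Helper58.FX (act UU ev ft Erg T sc PE)
open Helper58.FH

abbrev Tor := AddCircle (1 : ℝ)

lemma BH_both {H : Type*} [NormedAddCommGroup H] [InnerProductSpace ℂ H]
    {U V : H →ₗᵢ[ℂ] H} (hUV : Commute U V) (L I J : ℕ) (hL : 1 ≤ L) (hI : 1 ≤ I) (hJ : 1 ≤ J)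
    (u : H) : ‖BH U V I J u‖ ≤ ‖BH U V L L u‖ + (2 * L / I + 2 * L / J) * ‖u‖ := by
  have h1 : ‖BH U V I J u‖ ≤ ‖BH U V I L u‖ + 2 * L / J * ‖u‖ := by
    rw [BH_eq2 hUV I J, BH_eq2 hUV I L]
    refine (avg_long V _ L J hL hJ).trans ?_
    gcongr
    exact norm_avg_le U u I hI
  have h2 := BH_long2 (U := U) (V := V) L I hL hI u
  have h3 : (2 * L / I + 2 * L / J : ℝ) * ‖u‖ = 2 * L / I * ‖u‖ + 2 * L / J * ‖u‖ := by ring
  rw [h3]
  linarith

variable {μ : Measure Tor}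

theorem box_averages [IsProbabilityMeasure μ] (h2 : MeasurePreserving (T 2) μ μ)
    (h3 : MeasurePreserving (T 3) μ μ) (hE : Erg (ft μ)) (k : ℕ) (η : ℝ) (hη : 0 < η) :
    ∃ K : ℕ, ∀ I J : ℕ, K ≤ I → K ≤ J →
      ∫ x, ‖Bx k I J x - ft μ k‖ ^ 2 ∂μ ≤ η := by
  have hUV := Helper58.FX.St.commute_UU h2 h3
  set c := ft μ k with hc
  set u : Lp ℂ 2 μ := ev μ k - c • ev μ 0 with hu
  have h1 := Helper58.FX.St.mean_ergodic hUV (α := 1) (β := 1) (by simp) (by simp) (ev μ k)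
  rw [Helper58.FXP.H85.PE_ev h2 h3 hE] at h1
  have h4 : Tendsto (fun L : ℕ => ‖BH (UU h2) (UU h3) L L u‖) atTop (𝓝 0) := by
    have h5 : Tendsto (fun L : ℕ => ((L : ℂ) ^ 2)⁻¹ •
        ∑ s ∈ Helper58.FX.box L, ((conj (1 : ℂ)) ^ s.1 * (conj (1 : ℂ)) ^ s.2) • act (UU h2) (UU h3) s (ev μ k)
          - c • ev μ 0) atTop (𝓝 (c • ev μ 0 - c • ev μ 0)) := h1.sub_const _
    rw [sub_self] at h5
    have h6 := h5.norm
    rw [norm_zero] at h6
    refine h6.congr' ?_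
    filter_upwards [eventually_ge_atTop 1] with L hL
    rw [hu, BH_sub, BH_one h2 h3 L L hL hL]
    congr 2
    unfold BH
    rw [sq]
    congr 1
    unfold Helper58.FX.box
    refine Finset.sum_congr rfl fun s _ => ?_
    simp
  have hs : 0 < Real.sqrt η / 2 := by positivity
  obtain ⟨L, hL⟩ := ((h4.eventually_lt_const hs).and (eventually_ge_atTop 1)).exists
  obtain ⟨hL1, hL2⟩ := hL
  obtain ⟨M1, hM1⟩ := exists_nat_gt (4 * L * ‖u‖ / (Real.sqrt η / 2))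
  refine ⟨M1 + 1, fun I J hI hJ => ?_⟩
  have key : ∀ I : ℕ, M1 + 1 ≤ I → 2 * L / I * ‖u‖ ≤ Real.sqrt η / 4 := by
    intro I hI
    have hIr : (0 : ℝ) < I := by exact_mod_cast (by omega : 0 < I)
    have hI2 : 4 * L * ‖u‖ / (Real.sqrt η / 2) ≤ I := by
      refine hM1.le.trans ?_
      exact_mod_cast (by omega : M1 ≤ I)
    rw [div_le_iff₀ hs] at hI2
    rw [div_mul_eq_mul_div, div_le_iff₀ hIr]
    linarith
  have hsq : Real.sqrt η ^ 2 = η := Real.sq_sqrt hη.le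
  have e1 : BH (UU h2) (UU h3) I J (ev μ k) - c • ev μ 0 = BH (UU h2) (UU h3) I J u := by
    rw [hu, BH_sub, BH_one h2 h3 I J (by omega) (by omega)]
  rw [integral_Bx h2 h3, e1, ← hsq]
  have h7 := BH_both hUV L I J hL2 (by omega) (by omega) u
  have h8 := key I hI
  have h9 := key J hJ
  have h10 : (2 * L / I + 2 * L / J : ℝ) * ‖u‖ = 2 * L / I * ‖u‖ + 2 * L / J * ‖u‖ := by ring
  rw [h10] at h7
  gcongr
  linarith

end Pool.Agent.Helper40.TMA
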