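import Mathlib
import Pool.Agent.Helper40.TMA.Mean
import Pool.Agent.Helper91.TTT.Exotic

/-!
# Extreme traces: linear recurrence and ergodicity
-/

set_option autoImplicit false

open MeasureTheory Filter Topology Finset Helper17.FU Helper17.FUGroup Helper91.TTT
open scoped ENNReal ComplexConjugate ComplexOrder InnerProductSpace

namespace Pool.Agent.Helper40.TMA

open Helper58.FX (ft Erg T)

variable {s2 s3 t : Equiv.Perm ℚ}

/-- A linear recurrence from finite dimensionality. -/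
theorem exists_recurrence {τ : GG s2 s3 t} (hτ : (τ : Equiv.Perm ℚ) = t)
    (ht : ∀ x : ℚ, t x = x + 1) {φ : GG s2 s3 t → ℂ}
    (hfd : FiniteDimensional ℂ (Submodule.span ℂ {F : GG s2 s3 t → ℂ | ∃ n : GG s2 s3 t,
      IsTr n ∧ F = fun x => φ (n * x)})) :
    ∃ (d : ℕ) (c : ℕ → ℂ), (∃ j, j < d ∧ c j ≠ 0) ∧
      ∀ m : ℤ, ∑ j ∈ range d, c j * φ (τ ^ ((j : ℤ) + m)) = 0 := by
  classical
  set W := Submodule.span ℂ {F : GG s2 s3 t → ℂ | ∃ n : GG s2 s3 t,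
      IsTr n ∧ F = fun x => φ (n * x)} with hW
  have htr : ∀ j : ℕ, IsTr (τ ^ (j : ℤ)) := by
    intro j
    refine ⟨j, fun x => ?_⟩
    rw [Subgroup.coe_zpow, hτ, t_zpow ht]
    push_cast
    rfl
  set d : ℕ := Module.finrank ℂ W + 1 with hd
  set F : Fin d → W := fun j => ⟨fun x => φ (τ ^ ((j : ℕ) : ℤ) * x),
    Submodule.subset_span ⟨τ ^ ((j : ℕ) : ℤ), htr j, rfl⟩⟩ with hF
  have hdep : ¬ LinearIndependent ℂ F := by
    intro h
    have := h.fintype_card_le_finrank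
    rw [Fintype.card_fin] at this
    omega
  rw [Fintype.not_linearIndependent_iff] at hdep
  obtain ⟨g, hg, i, hi⟩ := hdep
  refine ⟨d, fun j => if h : j < d then g ⟨j, h⟩ else 0, ⟨i, i.2, by simpa using hi⟩, fun m => ?_⟩
  have h1 := congrArg (fun w : W => (w : GG s2 s3 t → ℂ) (τ ^ m)) hg
  simp only [Submodule.coe_sum, Submodule.coe_smul, Finset.sum_apply, Pi.smul_apply, hF,
    ZeroMemClass.coe_zero, Pi.zero_apply, smul_eq_mul] at h1
  refine Eq.trans ?_ h1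
  rw [Finset.sum_range]
  refine Finset.sum_congr rfl fun j _ => ?_
  simp only
  rw [dif_pos j.2, zpow_add]

/-- Ergodicity of the measure of an extreme trace. -/
theorem erg_of_extreme (h2 : ∀ x : ℚ, s2 x = 2 * x) (h3 : ∀ x : ℚ, s3 x = 3 * x)
    (ht : ∀ x : ℚ, t x = x + 1) {τ : GG s2 s3 t} (hτ : (τ : Equiv.Perm ℚ) = t)
    {φ : GG s2 s3 t → ℂ} (hφ : φ ∈ Set.extremePoints ℝ (TR (GG s2 s3 t)))
    {μ : Measure Tor} (hμ : ∀ n : ℤ, ∫ x, (fourier n x : ℂ) ∂μ = φ (τ ^ n)) : Erg (ft μ) := by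
  have hFφ : Fact (PD φ) := ⟨hφ.1.2.2⟩
  obtain ⟨σ2, σ3, τ', hσ2, hσ3, hτ', e2, e3, ecomm, hgen⟩ := relations h2 h3 ht
  have hττ' : τ' = τ := Subtype.ext (by rw [hτ', hτ])
  rw [hττ'] at e2 e3 hgen
  intro m
  have h1 := ergodic_part hφ σ2 σ3 τ e2 e3 ecomm hgen m
  unfold ft
  simp only [hμ]
  have e : rf φ τ m 1 = φ (τ ^ m) := by rw [rf, mul_one]
  rw [e] at h1
  exact h1

end Pool.Agent.Helper40.TMA
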