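import Mathlib
import Pool.Agent.Helper61.FR.St.P1

/-!
# Thin moving averages: the deterministic argument

If, off a set of measure `1 / 4`, ALL the points `2 ^ (n - i) x`, `i ≤ n`, are typical at their
scale, then intervals of length `2 ^ (- K)` of definite mass exist for every `K`.
The proof is stage 3 of `Pool.Agent.Helper61.FR` (by helper13), with no bad level instead of
few bad levels.
-/

set_option autoImplicit false

open MeasureTheory Finset

namespace Pool.Agent.Helper40.TMA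

open Pool.Agent.Helper61.FR

/-- the level used at step `j` -/
noncomputable def lev (q₀ j : ℕ) : ℕ := Nat.log 2 (2 ^ q₀ + (j - 1) / 2)

lemma lev_ge (q₀ j : ℕ) : q₀ ≤ lev q₀ j := by
  unfold lev
  exact Nat.le_log_of_pow_le (by norm_num) (by omega)

lemma lev_mono (q₀ : ℕ) {j k : ℕ} (hjk : j ≤ k) : lev q₀ j ≤ lev q₀ k := by
  unfold lev
  apply Nat.log_mono_right
  have : (j - 1) / 2 ≤ (k - 1) / 2 := Nat.div_le_div_right (by omega)
  omega

lemma lev_pow (q₀ j : ℕ) : 2 ^ lev q₀ j ≤ 2 ^ q₀ + (j - 1) / 2 := by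
  unfold lev
  apply Nat.pow_log_le_self
  have : 0 < 2 ^ q₀ := by positivity
  omega

lemma lev_lt (q₀ j : ℕ) : 2 ^ q₀ + (j - 1) / 2 < 2 ^ (lev q₀ j + 1) := by
  unfold lev
  exact Nat.lt_pow_succ_log_self (by norm_num) _

/-- the indices used at level `q` -/
def RR (q₀ q : ℕ) : Finset ℕ :=
  Finset.Ico (2 * (2 ^ q - 2 ^ q₀) + 1) (2 * (2 ^ (q + 1) - 2 ^ q₀) + q + 2)

lemma mem_RR {q₀ j i : ℕ} (hj : 1 ≤ j) (h1 : j ≤ i) (h2 : i ≤ j + lev q₀ j + 1) :
    i ∈ RR q₀ (lev q₀ j) := by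
  have ha := lev_pow q₀ j
  have hb := lev_lt q₀ j
  have hc := lev_ge q₀ j
  set q := lev q₀ j with hq
  have hd : 2 ^ q₀ ≤ 2 ^ q := Nat.pow_le_pow_right (by norm_num) hc
  have he : q + 1 < 2 ^ (q + 1) := Nat.lt_two_pow_self
  have hf : 2 ^ (q + 2) = 2 * 2 ^ (q + 1) := by ring
  have hg : 2 ^ (q + 1) = 2 * 2 ^ q := by ring
  unfold RR
  rw [Finset.mem_Ico]
  constructor
  · omega
  · omega

theorem stage3 {μ : Measure ℝ} (h : Inv23 μ) (q₀ r : ℕ) (M : ℕ → ℕ) (hq₀ : 8 ≤ q₀)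
    (hM : ∀ q, q₀ ≤ q → 4 * (M q + r) ≤ q) (G : ℕ → Set ℝ)
    (hdet : ∀ q, q₀ ≤ q → ∀ (n' : ℕ) (d : ℤ) (τ x : ℝ), M q + r ≤ n' → n' ≤ q + 2 → Odd d →
      |τ| * 3 ^ (2 ^ q) * 2 ^ n' ≤ 1 → x ∈ G q → x + d / 2 ^ n' + τ ∈ G q → False)
    (hE : ∀ n Q : ℕ, μ.real {x : ℝ | ∃ q, q₀ ≤ q ∧ q ≤ Q ∧ ∃ i ∈ RR q₀ q, i ≤ n ∧
      (2 : ℝ) ^ (n - i) * x ∉ G q} ≤ 1 / 4) :
    ∃ c : ℝ, 0 < c ∧ ∀ K : ℕ, ∃ y : ℝ, c ≤ μ.real {x | ∃ z : ℤ, |x - y - z| ≤ (1 / 2) ^ K} := by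
  classical
  have hprob := h.prob
  refine ⟨(3 / 4) / 3 ^ (2 ^ q₀), by positivity, fun K => ?_⟩
  -- the number of steps
  obtain ⟨n, hn⟩ : ∃ n, n = K + lev q₀ K + 1 := ⟨_, rfl⟩
  let FF : Set ℝ := {x : ℝ | ∃ q, q₀ ≤ q ∧ q ≤ lev q₀ K ∧ ∃ i ∈ RR q₀ q, i ≤ n ∧
      (2 : ℝ) ^ (n - i) * x ∉ G q}
  have hFF : μ.real FF ≤ 1 / 4 := hE n (lev q₀ K)
  have hFFc : 3 / 4 ≤ μ.real FFᶜ := by
    have h1 : μ.real (FF ∪ FFᶜ) ≤ μ.real FF + μ.real FFᶜ := measureReal_union_le _ _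
    rw [Set.union_compl_self, probReal_univ] at h1
    linarith
  -- one of the classes is large
  let Om : ℕ → Set ℝ := fun c =>
    FFᶜ ∩ {x | ⌊(3 : ℝ) ^ (2 ^ q₀) * Int.fract ((2 : ℝ) ^ n * x)⌋₊ = c}
  obtain ⟨c, hc⟩ : ∃ c, (3 / 4) / 3 ^ (2 ^ q₀) ≤ μ.real (Om c) := by
    by_contra hcon
    push Not at hcon
    have h1 : FFᶜ ⊆ ⋃ c ∈ Finset.range (3 ^ (2 ^ q₀)), Om c := by
      intro x hx
      rw [Set.mem_iUnion₂]
      refine ⟨⌊(3 : ℝ) ^ (2 ^ q₀) * Int.fract ((2 : ℝ) ^ n * x)⌋₊, ?_, hx, rfl⟩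
      rw [Finset.mem_range, Nat.floor_lt (mul_nonneg (by positivity) (Int.fract_nonneg _))]
      push_cast
      have := Int.fract_lt_one ((2 : ℝ) ^ n * x)
      have h3 : (0 : ℝ) < 3 ^ (2 ^ q₀) := by positivity
      nlinarith
    have h2 : μ.real FFᶜ ≤ ∑ c ∈ Finset.range (3 ^ (2 ^ q₀)), μ.real (Om c) :=
      (measureReal_mono h1 (measure_ne_top μ _)).trans (measureReal_biUnion_finset_le _ _)
    have h3 : ∑ c ∈ Finset.range (3 ^ (2 ^ q₀)), μ.real (Om c)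
        < ∑ c ∈ Finset.range (3 ^ (2 ^ q₀)), (3 / 4) / 3 ^ (2 ^ q₀) := by
      apply Finset.sum_lt_sum_of_nonempty
      · exact Finset.nonempty_range_iff.2 (by positivity)
      · intro c _
        exact hcon c
    rw [Finset.sum_const, Finset.card_range, nsmul_eq_mul] at h3
    push_cast at h3
    rw [mul_div_cancel₀ _ (by positivity : (3 : ℝ) ^ (2 ^ q₀) ≠ 0)] at h3
    linarith
  have hne : (Om c).Nonempty := by
    by_contra hcon
    rw [Set.not_nonempty_iff_eq_empty] at hcon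
    rw [hcon, measureReal_empty] at hc
    have : (0 : ℝ) < (3 / 4) / 3 ^ (2 ^ q₀) := by positivity
    linarith
  obtain ⟨x', hx'⟩ := hne
  -- the main claim
  have key : ∀ x ∈ Om c, ∀ j, j ≤ K → ∃ z : ℤ, (2 : ℝ) ^ (n - j) * (x - x')
      = (Int.fract ((2 : ℝ) ^ n * x) - Int.fract ((2 : ℝ) ^ n * x')) / 2 ^ j + z := by
    intro x hx
    obtain ⟨θ, hθ⟩ : ∃ θ, θ = Int.fract ((2 : ℝ) ^ n * x) - Int.fract ((2 : ℝ) ^ n * x') :=
      ⟨_, rfl⟩
    have hθ1 : |θ| * 3 ^ (2 ^ q₀) ≤ 1 := by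
      have e1 : ⌊(3 : ℝ) ^ (2 ^ q₀) * Int.fract ((2 : ℝ) ^ n * x)⌋₊ = c := hx.2
      have e2 : ⌊(3 : ℝ) ^ (2 ^ q₀) * Int.fract ((2 : ℝ) ^ n * x')⌋₊ = c := hx'.2
      have f1 := Nat.floor_le
        (mul_nonneg (by positivity : (0 : ℝ) ≤ 3 ^ (2 ^ q₀)) (Int.fract_nonneg ((2 : ℝ) ^ n * x)))
      have f2 := Nat.floor_le
        (mul_nonneg (by positivity : (0 : ℝ) ≤ 3 ^ (2 ^ q₀)) (Int.fract_nonneg ((2 : ℝ) ^ n * x')))
      have g1 := Nat.lt_floor_add_one ((3 : ℝ) ^ (2 ^ q₀) * Int.fract ((2 : ℝ) ^ n * x))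
      have g2 := Nat.lt_floor_add_one ((3 : ℝ) ^ (2 ^ q₀) * Int.fract ((2 : ℝ) ^ n * x'))
      rw [e1] at f1 g1
      rw [e2] at f2 g2
      have h3 : (0 : ℝ) < 3 ^ (2 ^ q₀) := by positivity
      have h4 : |θ| * 3 ^ (2 ^ q₀) = |θ * 3 ^ (2 ^ q₀)| := by rw [abs_mul, abs_of_pos h3]
      rw [h4, abs_le, hθ]
      constructor <;> nlinarith
    rw [← hθ]
    intro j
    induction j with
    | zero =>
      intro _
      refine ⟨⌊(2 : ℝ) ^ n * x⌋ - ⌊(2 : ℝ) ^ n * x'⌋, ?_⟩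
      rw [hθ, Nat.sub_zero, pow_zero, div_one]
      have a1 := Int.floor_add_fract ((2 : ℝ) ^ n * x)
      have a2 := Int.floor_add_fract ((2 : ℝ) ^ n * x')
      push_cast
      linarith
    | succ j ih =>
      intro hjK
      obtain ⟨z, hz⟩ := ih (by omega)
      have hlevK : lev q₀ (j + 1) ≤ lev q₀ K := lev_mono q₀ hjK
      obtain ⟨q, hq⟩ : ∃ q, q = lev q₀ (j + 1) := ⟨_, rfl⟩
      have hqq : q₀ ≤ q := hq ▸ lev_ge q₀ (j + 1)
      -- general formula for the lower indices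
      have hgen : ∀ i, j + 1 ≤ i → i ≤ n →
          (2 : ℝ) ^ (n - i) * (x - x') = θ / 2 ^ i + z / 2 ^ (i - j) := by
        intro i h1 h2
        have e1 : (2 : ℝ) ^ (n - j) = 2 ^ (n - i) * 2 ^ (i - j) := by
          rw [← pow_add]; congr 1; omega
        have e2 : (2 : ℝ) ^ i = 2 ^ (i - j) * 2 ^ j := by
          rw [← pow_add]; congr 1; omega
        rw [e1] at hz
        rw [e2]
        have h3 : (0 : ℝ) < 2 ^ (i - j) := by positivity
        have h4 : (0 : ℝ) < 2 ^ j := by positivity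
        field_simp
        field_simp at hz
        linarith
      rcases Int.even_or_odd z with hev | hodd
      · obtain ⟨w, hw⟩ := hev
        refine ⟨w, ?_⟩
        rw [hgen (j + 1) le_rfl (by omega)]
        rw [hw]
        have : j + 1 - j = 1 := by omega
        rw [this]
        push_cast
        ring
      · exfalso
        have hMq := hM q hqq
        have hgood : ∀ y, y ∈ Om c → ∀ i ∈ RR q₀ q, i ≤ n → (2 : ℝ) ^ (n - i) * y ∈ G q := by
          intro y hy i hi hin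
          by_contra hcon
          apply hy.1
          refine ⟨q, hqq, ?_, i, hi, hin, hcon⟩
          omega
        have hiR : j + 1 + (M q + r) ∈ RR q₀ q := by
          rw [hq]
          apply mem_RR (by omega) (by omega)
          rw [← hq]
          omega
        obtain ⟨i, hi⟩ : ∃ i, i = j + 1 + (M q + r) := ⟨_, rfl⟩
        rw [← hi] at hiR
        have hin : i ≤ n := by omega
        have g1 := hgood x hx i hiR hin
        have g2 := hgood x' hx' i hiR hin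
        have hform := hgen i (by omega) hin
        refine hdet q hqq (i - j) z (θ / 2 ^ i) ((2 : ℝ) ^ (n - i) * x') (by omega) (by omega)
          hodd ?_ g2 ?_
        · rw [abs_div, abs_of_pos (by positivity : (0 : ℝ) < 2 ^ i)]
          have e2 : (2 : ℝ) ^ i = 2 ^ (i - j) * 2 ^ j := by
            rw [← pow_add]; congr 1; omega
          have e3 : |θ| / 2 ^ i * 3 ^ (2 ^ q) * 2 ^ (i - j) = |θ| * 3 ^ (2 ^ q) / 2 ^ j := by
            rw [e2]
            field_simp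
          rw [e3, div_le_one (by positivity)]
          have e4 : 2 ^ q ≤ 2 ^ q₀ + j / 2 := by
            have := lev_pow q₀ (j + 1)
            rw [← hq] at this
            simpa using this
          calc |θ| * 3 ^ (2 ^ q) ≤ |θ| * 3 ^ (2 ^ q₀ + j / 2) := by
                apply mul_le_mul_of_nonneg_left _ (abs_nonneg _)
                exact pow_le_pow_right₀ (by norm_num) e4
            _ = (|θ| * 3 ^ (2 ^ q₀)) * 3 ^ (j / 2) := by rw [pow_add]; ring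
            _ ≤ 1 * 3 ^ (j / 2) := by
                apply mul_le_mul_of_nonneg_right hθ1 (by positivity)
            _ ≤ 4 ^ (j / 2) := by
                rw [one_mul]
                exact pow_le_pow_left₀ (by norm_num) (by norm_num) _
            _ = 2 ^ (2 * (j / 2)) := by rw [pow_mul]; norm_num
            _ ≤ 2 ^ j := pow_le_pow_right₀ (by norm_num) (by omega)
        · have : (2 : ℝ) ^ (n - i) * x' + z / 2 ^ (i - j) + θ / 2 ^ i = (2 : ℝ) ^ (n - i) * x := by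
            linarith
          rw [this]
          exact g1
  -- conclusion
  refine ⟨(2 : ℝ) ^ (n - K) * x', ?_⟩
  have hSm : MeasurableSet {x : ℝ | ∃ z : ℤ, |x - (2 : ℝ) ^ (n - K) * x' - z| ≤ (1 / 2) ^ K} := by
    rw [Set.ofPred_exists]
    refine MeasurableSet.iUnion fun z => ?_
    apply measurableSet_le _ measurable_const
    fun_prop
  have hpre := (preserving_two_pow h (n - K)).measure_preimage hSm.nullMeasurableSet
  have hle : μ.real (Om c)
      ≤ μ.real {x : ℝ | ∃ z : ℤ, |x - (2 : ℝ) ^ (n - K) * x' - z| ≤ (1 / 2) ^ K} := by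
    have : μ.real {x : ℝ | ∃ z : ℤ, |x - (2 : ℝ) ^ (n - K) * x' - z| ≤ (1 / 2) ^ K}
        = μ.real ((fun x : ℝ => Int.fract (2 ^ (n - K) * x)) ⁻¹'
          {x : ℝ | ∃ z : ℤ, |x - (2 : ℝ) ^ (n - K) * x' - z| ≤ (1 / 2) ^ K}) := by
      simp only [Measure.real, hpre]
    rw [this]
    refine measureReal_mono ?_ (measure_ne_top μ _)
    · intro x hx
      obtain ⟨z, hz⟩ := key x hx K le_rfl
      show ∃ z : ℤ, |Int.fract ((2 : ℝ) ^ (n - K) * x) - (2 : ℝ) ^ (n - K) * x' - z| ≤ (1 / 2) ^ K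
      refine ⟨z - ⌊(2 : ℝ) ^ (n - K) * x⌋, ?_⟩
      have a1 := Int.floor_add_fract ((2 : ℝ) ^ (n - K) * x)
      have b1 := Int.fract_nonneg ((2 : ℝ) ^ n * x)
      have b2 := Int.fract_lt_one ((2 : ℝ) ^ n * x)
      have b3 := Int.fract_nonneg ((2 : ℝ) ^ n * x')
      have b4 := Int.fract_lt_one ((2 : ℝ) ^ n * x')
      have e : Int.fract ((2 : ℝ) ^ (n - K) * x) - (2 : ℝ) ^ (n - K) * x'
          - ((z - ⌊(2 : ℝ) ^ (n - K) * x⌋ : ℤ) : ℝ)
          = (Int.fract ((2 : ℝ) ^ n * x) - Int.fract ((2 : ℝ) ^ n * x')) / 2 ^ K := by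
        push_cast
        linarith
      rw [e, abs_div, abs_of_pos (by positivity : (0 : ℝ) < 2 ^ K), one_div, inv_pow,
        div_eq_mul_inv]
      have : |Int.fract ((2 : ℝ) ^ n * x) - Int.fract ((2 : ℝ) ^ n * x')| ≤ 1 := by
        rw [abs_le]; constructor <;> linarith
      have h2 : (0 : ℝ) < (2 ^ K)⁻¹ := by positivity
      nlinarith
  exact hc.trans hle

end Pool.Agent.Helper40.TMA
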