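import Mathlib
import Pool.Agent.Helper40.TMA.Stage3

/-!
# Thin moving averages: the deterministic argument with a general depth

At level `q` the points at depth `w q` are compared.
-/

set_option autoImplicit false

open MeasureTheory Finset

namespace Pool.Agent.Helper40.TMA

open Pool.Agent.Helper61.FR

theorem stage3G {μ : Measure ℝ} (h : Inv23 μ) (q₀ : ℕ) (w : ℕ → ℕ)
    (hw1 : ∀ q, q₀ ≤ q → 1 ≤ w q) (hw2 : ∀ q, q₀ ≤ q → w q ≤ 2 ^ q) (G : ℕ → Set ℝ)
    (hGp : ∀ q x, Int.fract x ∈ G q ↔ x ∈ G q)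
    (hdet : ∀ q, q₀ ≤ q → ∀ (d : ℤ) (τ x : ℝ), Odd d →
      |τ| * 3 ^ (2 ^ q) * 2 ^ (w q) ≤ 1 → x ∈ G q → x + d / 2 ^ (w q) + τ ∈ G q → False)
    (hgood : ∀ n : ℕ, 3 / 4 ≤ μ.real {x | ∀ q, q₀ ≤ q → ∀ i, i ≤ n → i ≤ 5 * 2 ^ q →
      Int.fract (2 ^ (n - i) * x) ∈ G q}) :
    ∃ c : ℝ, 0 < c ∧ ∀ K : ℕ, ∃ y : ℝ, c ≤ μ.real {x | ∃ z : ℤ, |x - y - z| ≤ (1 / 2) ^ K} := by
  classical
  have hprob := h.prob
  refine ⟨(3 / 4) / 3 ^ (2 ^ q₀), by positivity, fun K => ?_⟩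
  -- the number of steps
  obtain ⟨n, hn⟩ : ∃ n, n = K + 2 ^ lev q₀ K := ⟨_, rfl⟩
  obtain ⟨GG, hGG⟩ : ∃ GG : Set ℝ, GG = {x | ∀ q, q₀ ≤ q → ∀ i, i ≤ n → i ≤ 5 * 2 ^ q →
      Int.fract (2 ^ (n - i) * x) ∈ G q} := ⟨_, rfl⟩
  have hFFc : 3 / 4 ≤ μ.real GG := by rw [hGG]; exact hgood n
  -- one of the classes is large
  let Om : ℕ → Set ℝ := fun c =>
    GG ∩ {x | ⌊(3 : ℝ) ^ (2 ^ q₀) * Int.fract ((2 : ℝ) ^ n * x)⌋₊ = c}
  obtain ⟨c, hc⟩ : ∃ c, (3 / 4) / 3 ^ (2 ^ q₀) ≤ μ.real (Om c) := by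
    by_contra hcon
    push Not at hcon
    have h1 : GG ⊆ ⋃ c ∈ Finset.range (3 ^ (2 ^ q₀)), Om c := by
      intro x hx
      rw [Set.mem_iUnion₂]
      refine ⟨⌊(3 : ℝ) ^ (2 ^ q₀) * Int.fract ((2 : ℝ) ^ n * x)⌋₊, ?_, hx, rfl⟩
      rw [Finset.mem_range, Nat.floor_lt (mul_nonneg (by positivity) (Int.fract_nonneg _))]
      push_cast
      have := Int.fract_lt_one ((2 : ℝ) ^ n * x)
      have h3 : (0 : ℝ) < 3 ^ (2 ^ q₀) := by positivity
      nlinarith
    have h2 : μ.real GG ≤ ∑ c ∈ Finset.range (3 ^ (2 ^ q₀)), μ.real (Om c) :=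
      (measureReal_mono h1 (measure_ne_top μ _)).trans (measureReal_biUnion_finset_le _ _)
    have h3 : ∑ c ∈ Finset.range (3 ^ (2 ^ q₀)), μ.real (Om c)
        < ∑ c ∈ Finset.range (3 ^ (2 ^ q₀)), (3 / 4) / 3 ^ (2 ^ q₀) := by
      apply Finset.sum_lt_sum_of_nonempty
      · exact Finset.nonempty_range_iff.2 (by positivity)
      · intro c _
        exact hcon c
    rw [Finset.sum_const, Finset.card_range, nsmul_eq_mul] at h3
    push_cast at h3
    rw [mul_div_cancel₀ _ (by positivity : (3 : ℝ) ^ (2 ^ q₀) ≠ 0)] at h3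
    linarith
  have hne : (Om c).Nonempty := by
    by_contra hcon
    rw [Set.not_nonempty_iff_eq_empty] at hcon
    rw [hcon, measureReal_empty] at hc
    have : (0 : ℝ) < (3 / 4) / 3 ^ (2 ^ q₀) := by positivity
    linarith
  obtain ⟨x', hx'⟩ := hne
  -- the main claim
  have key : ∀ x ∈ Om c, ∀ j, j ≤ K → ∃ z : ℤ, (2 : ℝ) ^ (n - j) * (x - x')
      = (Int.fract ((2 : ℝ) ^ n * x) - Int.fract ((2 : ℝ) ^ n * x')) / 2 ^ j + z := by
    intro x hx
    obtain ⟨θ, hθ⟩ : ∃ θ, θ = Int.fract ((2 : ℝ) ^ n * x) - Int.fract ((2 : ℝ) ^ n * x') :=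
      ⟨_, rfl⟩
    have hθ1 : |θ| * 3 ^ (2 ^ q₀) ≤ 1 := by
      have e1 : ⌊(3 : ℝ) ^ (2 ^ q₀) * Int.fract ((2 : ℝ) ^ n * x)⌋₊ = c := hx.2
      have e2 : ⌊(3 : ℝ) ^ (2 ^ q₀) * Int.fract ((2 : ℝ) ^ n * x')⌋₊ = c := hx'.2
      have f1 := Nat.floor_le
        (mul_nonneg (by positivity : (0 : ℝ) ≤ 3 ^ (2 ^ q₀)) (Int.fract_nonneg ((2 : ℝ) ^ n * x)))
      have f2 := Nat.floor_le
        (mul_nonneg (by positivity : (0 : ℝ) ≤ 3 ^ (2 ^ q₀)) (Int.fract_nonneg ((2 : ℝ) ^ n * x')))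
      have g1 := Nat.lt_floor_add_one ((3 : ℝ) ^ (2 ^ q₀) * Int.fract ((2 : ℝ) ^ n * x))
      have g2 := Nat.lt_floor_add_one ((3 : ℝ) ^ (2 ^ q₀) * Int.fract ((2 : ℝ) ^ n * x'))
      rw [e1] at f1 g1
      rw [e2] at f2 g2
      have h3 : (0 : ℝ) < 3 ^ (2 ^ q₀) := by positivity
      have h4 : |θ| * 3 ^ (2 ^ q₀) = |θ * 3 ^ (2 ^ q₀)| := by rw [abs_mul, abs_of_pos h3]
      rw [h4, abs_le, hθ]
      constructor <;> nlinarith
    rw [← hθ]
    intro j
    induction j with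
    | zero =>
      intro _
      refine ⟨⌊(2 : ℝ) ^ n * x⌋ - ⌊(2 : ℝ) ^ n * x'⌋, ?_⟩
      rw [hθ, Nat.sub_zero, pow_zero, div_one]
      have a1 := Int.floor_add_fract ((2 : ℝ) ^ n * x)
      have a2 := Int.floor_add_fract ((2 : ℝ) ^ n * x')
      push_cast
      linarith
    | succ j ih =>
      intro hjK
      obtain ⟨z, hz⟩ := ih (by omega)
      have hlevK : lev q₀ (j + 1) ≤ lev q₀ K := lev_mono q₀ hjK
      obtain ⟨q, hq⟩ : ∃ q, q = lev q₀ (j + 1) := ⟨_, rfl⟩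
      have hqq : q₀ ≤ q := hq ▸ lev_ge q₀ (j + 1)
      -- general formula for the lower indices
      have hgen : ∀ i, j + 1 ≤ i → i ≤ n →
          (2 : ℝ) ^ (n - i) * (x - x') = θ / 2 ^ i + z / 2 ^ (i - j) := by
        intro i h1 h2
        have e1 : (2 : ℝ) ^ (n - j) = 2 ^ (n - i) * 2 ^ (i - j) := by
          rw [← pow_add]; congr 1; omega
        have e2 : (2 : ℝ) ^ i = 2 ^ (i - j) * 2 ^ j := by
          rw [← pow_add]; congr 1; omega
        rw [e1] at hz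
        rw [e2]
        have h3 : (0 : ℝ) < 2 ^ (i - j) := by positivity
        have h4 : (0 : ℝ) < 2 ^ j := by positivity
        field_simp
        field_simp at hz
        linarith
      rcases Int.even_or_odd z with hev | hodd
      · obtain ⟨w, hw⟩ := hev
        refine ⟨w, ?_⟩
        rw [hgen (j + 1) le_rfl (by have : 1 ≤ 2 ^ lev q₀ K := Nat.one_le_two_pow; omega)]
        rw [hw]
        have : j + 1 - j = 1 := by omega
        rw [this]
        push_cast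
        ring
      · exfalso
        have hwq1 := hw1 q hqq
        have hwq2 := hw2 q hqq
        have hgood' : ∀ y, y ∈ Om c → ∀ i, i ≤ n → i ≤ 5 * 2 ^ q →
            (2 : ℝ) ^ (n - i) * y ∈ G q := by
          intro y hy i hin hi
          have h5 := hy.1
          rw [hGG] at h5
          exact (hGp q _).mp (h5 q hqq i hin hi)
        have hi5 : j + w q ≤ 5 * 2 ^ q := by
          have h5 := lev_lt q₀ (j + 1)
          rw [← hq, pow_succ] at h5
          have h6 : 1 ≤ 2 ^ q₀ := Nat.one_le_two_pow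
          simp only [Nat.add_sub_cancel] at h5
          omega
        obtain ⟨i, hi⟩ : ∃ i, i = j + w q := ⟨_, rfl⟩
        have hin : i ≤ n := by
          have h5 : 2 ^ q ≤ 2 ^ lev q₀ K := Nat.pow_le_pow_right (by norm_num) (by omega)
          omega
        have g1 := hgood' x hx i hin (by omega)
        have g2 := hgood' x' hx' i hin (by omega)
        have hform := hgen i (by omega) hin
        have hij : i - j = w q := by omega
        refine hdet q hqq z (θ / 2 ^ i) ((2 : ℝ) ^ (n - i) * x') hodd ?_ g2 ?_ <;> rw [← hij]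
        · rw [abs_div, abs_of_pos (by positivity : (0 : ℝ) < 2 ^ i)]
          have e2 : (2 : ℝ) ^ i = 2 ^ (i - j) * 2 ^ j := by
            rw [← pow_add]; congr 1; omega
          have e3 : |θ| / 2 ^ i * 3 ^ (2 ^ q) * 2 ^ (i - j) = |θ| * 3 ^ (2 ^ q) / 2 ^ j := by
            rw [e2]
            field_simp
          rw [e3, div_le_one (by positivity)]
          have e4 : 2 ^ q ≤ 2 ^ q₀ + j / 2 := by
            have := lev_pow q₀ (j + 1)
            rw [← hq] at this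
            simpa using this
          calc |θ| * 3 ^ (2 ^ q) ≤ |θ| * 3 ^ (2 ^ q₀ + j / 2) := by
                apply mul_le_mul_of_nonneg_left _ (abs_nonneg _)
                exact pow_le_pow_right₀ (by norm_num) e4
            _ = (|θ| * 3 ^ (2 ^ q₀)) * 3 ^ (j / 2) := by rw [pow_add]; ring
            _ ≤ 1 * 3 ^ (j / 2) := by
                apply mul_le_mul_of_nonneg_right hθ1 (by positivity)
            _ ≤ 4 ^ (j / 2) := by
                rw [one_mul]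
                exact pow_le_pow_left₀ (by norm_num) (by norm_num) _
            _ = 2 ^ (2 * (j / 2)) := by rw [pow_mul]; norm_num
            _ ≤ 2 ^ j := pow_le_pow_right₀ (by norm_num) (by omega)
        · have : (2 : ℝ) ^ (n - i) * x' + z / 2 ^ (i - j) + θ / 2 ^ i = (2 : ℝ) ^ (n - i) * x := by
            linarith
          rw [this]
          exact g1
  -- conclusion
  refine ⟨(2 : ℝ) ^ (n - K) * x', ?_⟩
  have hSm : MeasurableSet {x : ℝ | ∃ z : ℤ, |x - (2 : ℝ) ^ (n - K) * x' - z| ≤ (1 / 2) ^ K} := by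
    rw [Set.ofPred_exists]
    refine MeasurableSet.iUnion fun z => ?_
    apply measurableSet_le _ measurable_const
    fun_prop
  have hpre := (preserving_two_pow h (n - K)).measure_preimage hSm.nullMeasurableSet
  have hle : μ.real (Om c)
      ≤ μ.real {x : ℝ | ∃ z : ℤ, |x - (2 : ℝ) ^ (n - K) * x' - z| ≤ (1 / 2) ^ K} := by
    have : μ.real {x : ℝ | ∃ z : ℤ, |x - (2 : ℝ) ^ (n - K) * x' - z| ≤ (1 / 2) ^ K}
        = μ.real ((fun x : ℝ => Int.fract (2 ^ (n - K) * x)) ⁻¹'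
          {x : ℝ | ∃ z : ℤ, |x - (2 : ℝ) ^ (n - K) * x' - z| ≤ (1 / 2) ^ K}) := by
      simp only [Measure.real, hpre]
    rw [this]
    refine measureReal_mono ?_ (measure_ne_top μ _)
    · intro x hx
      obtain ⟨z, hz⟩ := key x hx K le_rfl
      show ∃ z : ℤ, |Int.fract ((2 : ℝ) ^ (n - K) * x) - (2 : ℝ) ^ (n - K) * x' - z| ≤ (1 / 2) ^ K
      refine ⟨z - ⌊(2 : ℝ) ^ (n - K) * x⌋, ?_⟩
      have a1 := Int.floor_add_fract ((2 : ℝ) ^ (n - K) * x)
      have b1 := Int.fract_nonneg ((2 : ℝ) ^ n * x)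
      have b2 := Int.fract_lt_one ((2 : ℝ) ^ n * x)
      have b3 := Int.fract_nonneg ((2 : ℝ) ^ n * x')
      have b4 := Int.fract_lt_one ((2 : ℝ) ^ n * x')
      have e : Int.fract ((2 : ℝ) ^ (n - K) * x) - (2 : ℝ) ^ (n - K) * x'
          - ((z - ⌊(2 : ℝ) ^ (n - K) * x⌋ : ℤ) : ℝ)
          = (Int.fract ((2 : ℝ) ^ n * x) - Int.fract ((2 : ℝ) ^ n * x')) / 2 ^ K := by
        push_cast
        linarith
      rw [e, abs_div, abs_of_pos (by positivity : (0 : ℝ) < 2 ^ K), one_div, inv_pow,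
        div_eq_mul_inv]
      have : |Int.fract ((2 : ℝ) ^ n * x) - Int.fract ((2 : ℝ) ^ n * x')| ≤ 1 := by
        rw [abs_le]; constructor <;> linarith
      have h2 : (0 : ℝ) < (2 ^ K)⁻¹ := by positivity
      nlinarith
  exact hc.trans hle

end Pool.Agent.Helper40.TMA
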