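import Mathlib
import Pool.Agent.Helper61.FR.St.P1
import Pool.Agent.Helper61.FR.St.P10

/-!
# Thin moving averages: definition and first properties
-/

set_option autoImplicit false

open MeasureTheory Finset

namespace Pool.Agent.Helper40.TMA

open Pool.Agent.Helper61.FR

/-- The bad event up to scale `Q`: for some scale `q` with `q₀ ≤ q ≤ Q` and some
`2 ^ (q + 1) ≤ i ≤ 3 * 2 ^ (q + 1)`, the average of the `m`-th character over the box
`M q × 2 ^ q` at the point `x_i = 2 ^ (3 * 2 ^ (Q + 1) - i) * x` deviates from its mean by more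
than `ε`. -/
def badEvent (μ : Measure ℝ) (M : ℕ → ℕ) (m : ℕ) (ε : ℝ) (q₀ Q : ℕ) : Set ℝ :=
  {x : ℝ | ∃ q, q₀ ≤ q ∧ q ≤ Q ∧ ∃ i, 2 ^ (q + 1) ≤ i ∧ i ≤ 3 * 2 ^ (q + 1) ∧
    (2 : ℝ) ^ (3 * 2 ^ (Q + 1) - i) * x ∈ dev μ (M q) (2 ^ q) m ε}

/-- **Convergence of the thin moving averages.**  For every character the averages over the boxes
`M q × 2 ^ q` at the points `x_i`, `2 ^ (q + 1) ≤ i ≤ 3 * 2 ^ (q + 1)`, of the `×2`-past
`x = 2 ^ n x_n, x_n = 2 x_{n + 1}, ...` converge to the mean, uniformly in `i` and almost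
uniformly in the past (i.e. almost everywhere on the natural extension). -/
def TMA (μ : Measure ℝ) (M : ℕ → ℕ) : Prop :=
  ∀ m : ℕ, 1 ≤ m → ∀ ε : ℝ, 0 < ε → ∃ q₀ : ℕ, ∀ Q : ℕ,
    μ.real (badEvent μ M m ε q₀ Q) ≤ ε

theorem dev_anti (μ : Measure ℝ) (M N m : ℕ) {ε η : ℝ} (h : ε ≤ η) :
    dev μ M N m η ⊆ dev μ M N m ε := fun _ hx => lt_of_le_of_lt h hx

theorem mem_dev_add_int (μ : Measure ℝ) (M N m : ℕ) (η x y : ℝ) (z : ℤ) (h : x = y + z) :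
    x ∈ dev μ M N m η ↔ y ∈ dev μ M N m η := by
  rw [← fract_mem_dev μ M N m η x, ← fract_mem_dev μ M N m η y, h, Int.fract_add_intCast]

theorem mul_fract_mem_dev (μ : Measure ℝ) (M N m : ℕ) (η x : ℝ) (a p : ℕ) :
    (2 : ℝ) ^ a * Int.fract (2 ^ p * x) ∈ dev μ M N m η ↔
      (2 : ℝ) ^ (a + p) * x ∈ dev μ M N m η := by
  symm
  refine mem_dev_add_int μ M N m η _ _ (2 ^ a * ⌊(2 : ℝ) ^ p * x⌋) ?_
  have := Int.floor_add_fract ((2 : ℝ) ^ p * x)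
  push_cast
  rw [pow_add]
  linear_combination (-(2 : ℝ) ^ a) * this

theorem measurableSet_mul_dev (μ : Measure ℝ) (M N m : ℕ) (η : ℝ) (a : ℕ) :
    MeasurableSet {x : ℝ | (2 : ℝ) ^ a * x ∈ dev μ M N m η} :=
  (measurable_const_mul ((2 : ℝ) ^ a)) (measurableSet_dev μ M N m η)

theorem real_mul_dev {μ : Measure ℝ} (h : Inv23 μ) (M N m : ℕ) (η : ℝ) (a : ℕ) :
    μ.real {x : ℝ | (2 : ℝ) ^ a * x ∈ dev μ M N m η} = μ.real (dev μ M N m η) := by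
  have h1 := (preserving_two_pow h a).measureReal_preimage
    (measurableSet_dev μ M N m η).nullMeasurableSet
  rw [← h1]
  congr 1
  ext x
  show (2 : ℝ) ^ a * x ∈ dev μ M N m η ↔ Int.fract (2 ^ a * x) ∈ dev μ M N m η
  rw [fract_mem_dev]

/-- The thin moving averages control the plain averages. -/
theorem TMA.dev_le {μ : Measure ℝ} (h : Inv23 μ) {M : ℕ → ℕ} (hT : TMA μ M) (m : ℕ) (hm : 1 ≤ m)
    (η δ : ℝ) (hη : 0 < η) (hδ : 0 < δ) :
    ∃ q₀ : ℕ, ∀ q, q₀ ≤ q → μ.real (dev μ (M q) (2 ^ q) m η) ≤ δ := by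
  have := h.prob
  obtain ⟨q₀, hq₀⟩ := hT m hm (min η δ) (lt_min hη hδ)
  refine ⟨q₀, fun q hq => ?_⟩
  rw [← real_mul_dev h (M q) (2 ^ q) m η (3 * 2 ^ (q + 1) - 2 ^ (q + 1))]
  refine le_trans (measureReal_mono ?_ (measure_ne_top μ _)) ((hq₀ q).trans (min_le_right _ _))
  intro x hx
  exact ⟨q, hq, le_rfl, 2 ^ (q + 1), le_rfl, by omega,
    dev_anti μ _ _ _ (min_le_left η δ) hx⟩

end Pool.Agent.Helper40.TMA
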