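import Mathlib
import Pool.Agent.Helper40.TMA.Defs
import Pool.Agent.Helper40.TMA.Mean
import Pool.Agent.Helper61.FR.St.P13

/-!
# Finitely supported ergodic measures
-/

set_option autoImplicit false

open MeasureTheory Filter Topology Finset
open scoped ENNReal ComplexConjugate

namespace Pool.Agent.Helper40.TMA

open Helper58.FX (ft Erg T)
open Helper58.FH (Bx continuous_Bx integrable_Bx)
open Pool.Agent.Helper61.FR

/-- The zero set of a nonzero trigonometric polynomial is finite. -/
theorem finite_zeros (d : ℕ) (c : ℕ → ℂ) (hc : ∃ j, j < d ∧ c j ≠ 0) :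
    {x : Tor | ∑ j ∈ range d, c j * (fourier (j : ℤ) x : ℂ) = 0}.Finite := by
  classical
  obtain ⟨j₀, hj₀, hc₀⟩ := hc
  set p : Polynomial ℂ := ∑ j ∈ range d, Polynomial.monomial j (c j) with hp
  have hp0 : p ≠ 0 := by
    intro h
    have h1 : p.coeff j₀ = c j₀ := by
      rw [hp, Polynomial.finset_sum_coeff]
      simp only [Polynomial.coeff_monomial]
      rw [Finset.sum_ite_eq']
      simp [hj₀]
    rw [h, Polynomial.coeff_zero] at h1
    exact hc₀ h1.symm
  have hfin : (p.roots.toFinset : Set ℂ).Finite := Finset.finite_toSet _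
  refine Set.Finite.subset (hfin.preimage (f := fun x : Tor => (fourier 1 x : ℂ)) ?_) ?_
  · intro x _ y _ hxy
    simp only [fourier_one] at hxy
    exact AddCircle.injective_toCircle one_ne_zero (Subtype.ext hxy)
  · intro x hx
    simp only [Set.mem_preimage, Finset.mem_coe, Multiset.mem_toFinset]
    rw [Polynomial.mem_roots hp0, Polynomial.IsRoot.def, hp, Polynomial.eval_finset_sum]
    simp only [Polynomial.eval_monomial]
    have hx' : ∑ j ∈ range d, c j * (fourier (j : ℤ) x : ℂ) = 0 := hx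
    rw [← hx']
    refine Finset.sum_congr rfl fun j _ => ?_
    congr 1
    rw [fourier_one, fourier_apply, ← Circle.coe_pow, ← AddCircle.toCircle_nsmul, natCast_zsmul]

/-- A measure with a linear recurrence for its Fourier coefficients is finitely supported. -/
theorem finite_support (ν : Measure Tor) [IsProbabilityMeasure ν] (d : ℕ) (c : ℕ → ℂ)
    (hc : ∃ j, j < d ∧ c j ≠ 0) (h0 : ∀ m : ℤ, ∑ j ∈ range d, c j * ft ν (j + m) = 0) :
    ∃ Z : Set Tor, Z.Finite ∧ ν Zᶜ = 0 := by
  refine ⟨_, finite_zeros d c hc, ?_⟩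
  set P : Tor → ℂ := fun x => ∑ j ∈ range d, c j * (fourier (j : ℤ) x : ℂ) with hP
  have hPc : Continuous P := by
    rw [hP]; fun_prop
  have hint : ∀ f : Tor → ℂ, Continuous f → Integrable f ν := fun f hf =>
    Helper17.TranslM.integrable_cont ν hf
  have h1 : ∀ m : ℤ, ∫ x, P x * (fourier m x : ℂ) ∂ν = 0 := by
    intro m
    rw [← h0 m]
    have h2 : ∀ x, P x * (fourier m x : ℂ) = ∑ j ∈ range d, c j * (fourier ((j : ℤ) + m) x : ℂ) := by
      intro x
      rw [hP]
      simp only
      rw [Finset.sum_mul]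
      refine Finset.sum_congr rfl fun j _ => ?_
      rw [fourier_add, mul_assoc]
    simp only [h2]
    rw [integral_finset_sum _ fun j _ => hint _ (by fun_prop)]
    refine Finset.sum_congr rfl fun j _ => ?_
    rw [integral_const_mul]
    rfl
  have h2 : ∫ x, ‖P x‖ ^ 2 ∂ν = 0 := by
    have h3 : ((∫ x, ‖P x‖ ^ 2 ∂ν : ℝ) : ℂ) = ∫ x, P x * conj (P x) ∂ν := by
      rw [← integral_complex_ofReal]
      refine integral_congr_ae (Eventually.of_forall fun x => ?_)
      simp only
      rw [Complex.mul_conj']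
      push_cast
      rfl
    have h4 : ∀ x, P x * conj (P x) = ∑ j ∈ range d, conj (c j) * (P x * (fourier (-(j : ℤ)) x : ℂ)) := by
      intro x
      have h5 : conj (P x) = ∑ j ∈ range d, conj (c j) * (fourier (-(j : ℤ)) x : ℂ) := by
        rw [hP]
        simp only [map_sum, map_mul]
        refine Finset.sum_congr rfl fun j _ => ?_
        rw [fourier_neg]
      rw [h5, Finset.mul_sum]
      refine Finset.sum_congr rfl fun j _ => ?_
      ring
    have h6 : ∫ x, P x * conj (P x) ∂ν = 0 := by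
      simp only [h4]
      rw [integral_finset_sum _ fun j _ => hint _ (by fun_prop)]
      refine Finset.sum_eq_zero fun j _ => ?_
      rw [integral_const_mul, h1, mul_zero]
    rw [h6] at h3
    exact_mod_cast h3
  have h3 : (fun x => ‖P x‖ ^ 2) =ᵐ[ν] 0 := by
    rw [← integral_eq_zero_iff_of_nonneg (fun x => by positivity)]
    · exact h2
    · exact Helper17.TranslM.integrable_cont ν (by fun_prop)
  have h4 : ∀ᵐ x ∂ν, P x = 0 := by
    filter_upwards [h3] with x hx
    have : ‖P x‖ ^ 2 = 0 := hx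
    simpa using this
  exact h4

/-- The atoms of a finitely supported measure are bounded below. -/
theorem exists_lower (ν : Measure Tor) [IsProbabilityMeasure ν] (Z : Set Tor) (hZ : Z.Finite)
    (hν : ν Zᶜ = 0) : ∃ c : ℝ, 0 < c ∧ ∀ A : Set Tor, ν.real A < c → ν A = 0 := by
  classical
  have h1 : ∃ c : ℝ, 0 < c ∧ ∀ z ∈ Z, 0 < ν.real {z} → c ≤ ν.real {z} := by
    refine Set.Finite.induction_on (motive := fun Z _ => ∃ c : ℝ, 0 < c ∧ ∀ z ∈ Z, 0 < ν.real {z} →
      c ≤ ν.real {z}) Z hZ ⟨1, one_pos, by simp⟩ ?_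
    intro a s _ _ ih
    obtain ⟨c, hc, h⟩ := ih
    by_cases ha : 0 < ν.real {a}
    · refine ⟨min c (ν.real {a}), lt_min hc ha, ?_⟩
      intro z hz hz0
      rcases Set.mem_insert_iff.1 hz with rfl | hz
      · exact min_le_right _ _
      · exact (min_le_left _ _).trans (h z hz hz0)
    · refine ⟨c, hc, ?_⟩
      intro z hz hz0
      rcases Set.mem_insert_iff.1 hz with rfl | hz
      · exact absurd hz0 ha
      · exact h z hz hz0
  obtain ⟨c, hc, h⟩ := h1
  refine ⟨c, hc, fun A hA => ?_⟩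
  have h2 : ∀ z ∈ A ∩ Z, ν {z} = 0 := by
    intro z hz
    by_contra hne
    have h3 : 0 < ν.real {z} := by
      rw [Measure.real, ENNReal.toReal_pos_iff]
      exact ⟨pos_iff_ne_zero.2 hne, measure_lt_top _ _⟩
    have h4 := h z hz.2 h3
    have h5 : ν.real {z} ≤ ν.real A :=
      measureReal_mono (Set.singleton_subset_iff.2 hz.1) (measure_ne_top _ _)
    linarith
  have h3 : ν (A ∩ Z) = 0 := by
    rw [← Set.biUnion_of_singleton (A ∩ Z),
      measure_biUnion_null_iff (hZ.subset Set.inter_subset_right).countable]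
    exact h2
  refine measure_mono_null (t := (A ∩ Z) ∪ Zᶜ) ?_ (measure_union_null h3 hν)
  intro x hx
  by_cases hxZ : x ∈ Z
  · exact Or.inl ⟨hx, hxZ⟩
  · exact Or.inr hxZ

/-- the averages over boxes in the two notations -/
theorem avg_eq_Bx (m I J : ℕ) (x : ℝ) :
    avg I J (fun y => e (m * y)) x = Bx m I J (x : Tor) := by
  unfold avg Bx
  rw [div_eq_inv_mul, Finset.sum_product]
  refine congrArg _ (Finset.sum_congr rfl fun i _ => Finset.sum_congr rfl fun k _ => ?_)
  rw [fourier_eq_e]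
  push_cast
  ring_nf

/-- **The thin moving averages converge for a finitely supported ergodic measure.** -/
theorem tma_finite {μ : Measure ℝ} (h : Inv23 μ) (ν : Measure Tor) [IsProbabilityMeasure ν]
    (hν : μ.map (fun y : ℝ => (y : Tor)) = ν) (h2 : MeasurePreserving (T 2) ν ν)
    (h3 : MeasurePreserving (T 3) ν ν) (hE : Erg (ft ν)) (Z : Set Tor) (hZ : Z.Finite)
    (hνZ : ν Zᶜ = 0) : TMA μ (fun q => q / 200) := by
  have := h.prob
  have hmeas : Measurable (fun y : ℝ => (y : Tor)) := AddCircle.measurable_mk'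
  intro m hm ε hε
  obtain ⟨c, hc, hc'⟩ := exists_lower ν Z hZ hνZ
  obtain ⟨K, hK⟩ := box_averages h2 h3 hE m (c / 2 * ε ^ 2) (by positivity)
  have hint : ∫ y, e (m * y) ∂μ = ft ν m := by
    unfold ft
    rw [← hν, integral_map hmeas.aemeasurable (fourier (m : ℤ)).continuous.aestronglyMeasurable]
    refine integral_congr_ae (Eventually.of_forall fun y => ?_)
    simp only
    rw [fourier_eq_e]
    push_cast
    rfl
  have hdev : ∀ I J : ℕ, K ≤ I → K ≤ J → μ (dev μ I J m ε) = 0 := by
    intro I J hI hJ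
    set A : Set Tor := {x | ε < ‖Bx m I J x - ft ν m‖} with hA
    have hAm : MeasurableSet A :=
      (isOpen_lt continuous_const (((continuous_Bx m I J).sub continuous_const).norm)).measurableSet
    have h4 : dev μ I J m ε = (fun y : ℝ => (y : Tor)) ⁻¹' A := by
      ext x
      show ε < ‖avg I J (fun y => e (m * y)) x - ∫ y, e (m * y) ∂μ‖ ↔ _
      rw [hint, avg_eq_Bx]
      rfl
    rw [h4, ← Measure.map_apply hmeas hAm, hν]
    apply hc'
    have h5 := mul_meas_ge_le_integral_of_nonneg (μ := ν)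
      (f := fun x => ‖Bx m I J x - ft ν m‖ ^ 2) (Eventually.of_forall fun x => by positivity)
      (integrable_Bx m I J (ft ν m)) (ε ^ 2)
    have h6 : ν.real A ≤ ν.real {x | ε ^ 2 ≤ ‖Bx m I J x - ft ν m‖ ^ 2} := by
      refine measureReal_mono ?_ (measure_ne_top _ _)
      intro x hx
      have hx' : ε < ‖Bx m I J x - ft ν m‖ := hx
      show ε ^ 2 ≤ ‖Bx m I J x - ft ν m‖ ^ 2
      gcongr
    have h7 := hK I J hI hJ
    have h8 : ε ^ 2 * ν.real A ≤ c / 2 * ε ^ 2 :=
      (mul_le_mul_of_nonneg_left h6 (by positivity)).trans (h5.trans h7)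
    have h9 : 0 < ε ^ 2 := by positivity
    have h10 : ν.real A ≤ c / 2 := by
      by_contra hcon
      push Not at hcon
      nlinarith
    linarith
  refine ⟨200 * K + 200, fun Q => ?_⟩
  have hnull : ∀ q ∈ Icc (200 * K + 200) Q, ∀ a : ℕ,
      μ.real {x : ℝ | (2 : ℝ) ^ a * x ∈ dev μ (q / 200) (2 ^ q) m ε} = 0 := by
    intro q hq a
    have hq1 := (Finset.mem_Icc.1 hq).1
    have h6 : K ≤ 2 ^ q := by
      have : q < 2 ^ q := Nat.lt_two_pow_self
      omega
    rw [real_mul_dev h (q / 200) (2 ^ q) m ε a, Measure.real, hdev (q / 200) (2 ^ q) (by omega) h6]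
    rfl
  have hsub : badEvent μ (fun q => q / 200) m ε (200 * K + 200) Q ⊆
      ⋃ q ∈ Icc (200 * K + 200) Q, ⋃ i ∈ range (3 * 2 ^ (q + 1) + 1),
        {x : ℝ | (2 : ℝ) ^ (3 * 2 ^ (Q + 1) - i) * x ∈ dev μ (q / 200) (2 ^ q) m ε} := by
    rintro x ⟨q, h1, h2, i, h3, h4, h5⟩
    rw [Set.mem_iUnion₂]
    refine ⟨q, Finset.mem_Icc.2 ⟨h1, h2⟩, ?_⟩
    rw [Set.mem_iUnion₂]
    exact ⟨i, Finset.mem_range.2 (by omega), h5⟩
  refine (measureReal_mono hsub (measure_ne_top μ _)).trans
    ((measureReal_biUnion_finset_le _ _).trans ?_)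
  refine le_trans (Finset.sum_nonpos fun q hq => ?_) hε.le
  refine (measureReal_biUnion_finset_le _ _).trans (Finset.sum_nonpos fun i _ => ?_)
  exact (hnull q hq _).le

end Pool.Agent.Helper40.TMA
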