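import Mathlib
import Pool.Agent.Helper61.FR.St.P12

/-!
# The variance of the averages over boxes for Lebesgue measure
-/

set_option autoImplicit false

open MeasureTheory Finset Filter

namespace Pool.Agent.Helper40.TMA

open Pool.Agent.Helper61.FR

theorem two_three_inj {i k i' k' : ℕ} (h : (2 : ℤ) ^ i * 3 ^ k = 2 ^ i' * 3 ^ k') :
    i = i' ∧ k = k' := by
  have h1 : 2 ^ i * 3 ^ k = 2 ^ i' * 3 ^ k' := by exact_mod_cast h
  have hf : ∀ a b : ℕ, (2 ^ a * 3 ^ b).factorization 2 = a ∧
      (2 ^ a * 3 ^ b).factorization 3 = b := by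
    intro a b
    rw [Nat.factorization_mul (by positivity) (by positivity), Nat.factorization_pow,
      Nat.factorization_pow, Nat.Prime.factorization Nat.prime_two,
      Nat.Prime.factorization Nat.prime_three]
    simp
  have h2 := hf i k
  have h3 := hf i' k'
  rw [h1] at h2
  exact ⟨h2.1.symm.trans h3.1, h2.2.symm.trans h3.2⟩

/-- Lebesgue measure: the variance of the average over a box is the inverse of its area. -/
theorem variance_lebesgue {μ : Measure ℝ} (h : Inv23 μ) (hL : ∀ n : ℤ, n ≠ 0 → cf μ n = 0)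
    (M N m : ℕ) (hM : 1 ≤ M) (hN : 1 ≤ N) (hm : 1 ≤ m) :
    ∫ x, ‖avg M N (fun y => e (m * y)) x - ∫ y, e (m * y) ∂μ‖ ^ 2 ∂μ = 1 / (M * N) := by
  have := h.prob
  rw [variance_eq h M N m hM hN]
  have h0 : cf μ m = 0 := hL m (by omega)
  have h1 : cf μ 0 = 1 := by
    unfold cf
    have : ∀ y : ℝ, e (((0 : ℤ) : ℝ) * y) = 1 := by
      intro y
      unfold e
      simp
    simp only [this]
    simp
  have h2 : ∀ i k i' k' : ℕ, (cf μ (m * (2 ^ i * 3 ^ k - 2 ^ i' * 3 ^ k'))).re =
      if i = i' ∧ k = k' then 1 else 0 := by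
    intro i k i' k'
    split_ifs with hc
    · rw [hc.1, hc.2, sub_self, mul_zero, h1, Complex.one_re]
    · rw [hL _ ?_, Complex.zero_re]
      refine mul_ne_zero (by exact_mod_cast (by omega : m ≠ 0)) ?_
      rw [sub_ne_zero]
      intro hcon
      exact hc (two_three_inj hcon)
  have h3 : ∀ i ∈ range M, ∀ k ∈ range N, ∑ i' ∈ range M, ∑ k' ∈ range N,
      (cf μ (m * (2 ^ i * 3 ^ k - 2 ^ i' * 3 ^ k'))).re = 1 := by
    intro i hi k hk
    rw [Finset.sum_eq_single i, Finset.sum_eq_single k]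
    · rw [h2, if_pos ⟨rfl, rfl⟩]
    · intro k' _ hk'
      rw [h2, if_neg (fun hc => hk' hc.2.symm)]
    · intro hk'; exact absurd hk hk'
    · intro i' _ hi'
      refine Finset.sum_eq_zero fun k' _ => ?_
      rw [h2, if_neg (fun hc => hi' hc.1.symm)]
    · intro hi'; exact absurd hi hi'
  rw [Finset.sum_congr rfl fun i hi => Finset.sum_congr rfl fun k hk => h3 i hi k hk, h0]
  have hM0 : (M : ℝ) ≠ 0 := by
    have : (0 : ℝ) < M := by exact_mod_cast hM
    exact this.ne'
  have hN0 : (N : ℝ) ≠ 0 := by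
    have : (0 : ℝ) < N := by exact_mod_cast hN
    exact this.ne'
  simp only [sum_const, card_range, nsmul_eq_mul, mul_one, norm_zero]
  field_simp
  ring

end Pool.Agent.Helper40.TMA
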