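import Mathlib
import Pool.Agent.Helper40.TMA.Finite
import Pool.Agent.Helper61.FR.Overlap
import Pool.Agent.Helper40.TMA.Lebesgue
import Pool.Agent.Helper61.FR.St.P11

/-!
# The forward moving averages converge for Lebesgue measure and for finitely supported ergodic
measures
-/

set_option autoImplicit false

open MeasureTheory Filter Topology Finset
open scoped ENNReal ComplexConjugate

namespace Pool.Agent.Helper40.TMA

open Helper58.FX (ft Erg T)
open Helper58.FH (Bx continuous_Bx integrable_Bx)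
open Pool.Agent.Helper61.FR

/-- **Convergence of the thin moving averages** (forward form): for every character `e (m y)` and
almost every `x`, the averages over the boxes `q / 200` times `2 ^ q` at the points `2 ^ i x`,
`i ≤ 2 ^ q`, converge to the mean of the character, uniformly in `i`, as `q → ∞`. -/
def MovingAverages (μ : Measure ℝ) : Prop :=
  ∀ m : ℕ, 1 ≤ m → ∀ᵐ x ∂μ, ∀ ε : ℝ, 0 < ε → ∃ Q : ℕ, ∀ q, Q ≤ q → ∀ i, i ≤ 2 ^ q →
    ‖avg (q / 200) (2 ^ q) (fun y => e (m * y)) (2 ^ i * x) - ∫ y, e (m * y) ∂μ‖ ≤ ε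

theorem cf_eq_zero_of {μ : Measure ℝ} (hL : ∀ m : ℕ, 1 ≤ m → ∫ y, e (m * y) ∂μ = 0) (n : ℤ)
    (hn : n ≠ 0) : cf μ n = 0 := by
  rcases lt_or_gt_of_ne hn with hn | hn
  · have h1 := cf_neg μ (-n)
    rw [neg_neg] at h1
    have h2 : cf μ (-n) = 0 := by
      have h3 := hL (-n).toNat (by omega)
      unfold cf
      have h4 : ((-n : ℤ) : ℝ) = (((-n).toNat : ℕ) : ℝ) := by
        have h5 : (((-n).toNat : ℕ) : ℤ) = -n := Int.toNat_of_nonneg (by omega)
        rw [← h5]
        push_cast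
        rfl
      rw [h4]
      exact h3
    rw [h1, h2, star_zero]
  · have h3 := hL n.toNat (by omega)
    unfold cf
    have h4 : ((n : ℤ) : ℝ) = ((n.toNat : ℕ) : ℝ) := by
      have h5 : ((n.toNat : ℕ) : ℤ) = n := Int.toNat_of_nonneg (by omega)
      rw [← h5]
      push_cast
      rfl
    rw [h4]
    exact h3

/-- Lebesgue measure satisfies the large deviation bound. -/
theorem summable_lebesgue {μ : Measure ℝ} (h : Inv23 μ)
    (hL : ∀ m : ℕ, 1 ≤ m → ∫ y, e (m * y) ∂μ = 0) (m : ℕ) (hm : 1 ≤ m) (η : ℝ) (hη : 0 < η) :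
    Summable fun q : ℕ => (2 ^ q / q : ℝ) * μ.real (dev μ (q / 200) (2 ^ q) m η) := by
  refine summable_dev h (fun q => q / 200) m 400 1 one_pos ?_ η hη
  intro q hq
  rw [variance_lebesgue h (cf_eq_zero_of hL) (q / 200) (2 ^ q) m (by omega) Nat.one_le_two_pow hm]
  rw [Real.rpow_one]
  have hq0 : (0 : ℝ) < q := by exact_mod_cast (by omega : 0 < q)
  have hM0 : (0 : ℝ) < ((q / 200 : ℕ) : ℝ) := by exact_mod_cast (by omega : 0 < q / 200)
  have h1 : (q : ℝ) ≤ 400 * ((q / 200 : ℕ) : ℝ) := by exact_mod_cast (by omega : q ≤ 400 * (q / 200))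
  rw [div_le_div_iff₀ (by positivity) (by positivity)]
  push_cast
  have h2 : (0 : ℝ) < 2 ^ q := by positivity
  nlinarith

/-- **The thin moving averages converge for Lebesgue measure.** -/
theorem forward_lebesgue {μ : Measure ℝ} (h : Inv23 μ)
    (hL : ∀ m : ℕ, 1 ≤ m → ∫ y, e (m * y) ∂μ = 0) : MovingAverages μ := fun m hm =>
  forward_of_summable h m (summable_lebesgue h hL m hm)

theorem integral_eq_ft {μ : Measure ℝ} (ν : Measure Tor)
    (hν : μ.map (fun y : ℝ => (y : Tor)) = ν) (m : ℕ) : ∫ y, e (m * y) ∂μ = ft ν m := by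
  have hmeas : Measurable (fun y : ℝ => (y : Tor)) := AddCircle.measurable_mk'
  unfold ft
  rw [← hν, integral_map hmeas.aemeasurable (fourier (m : ℤ)).continuous.aestronglyMeasurable]
  refine integral_congr_ae (Eventually.of_forall fun y => ?_)
  simp only
  rw [fourier_eq_e]
  push_cast
  rfl

/-- **The thin moving averages converge for a finitely supported ergodic measure.** -/
theorem forward_finite {μ : Measure ℝ} (h : Inv23 μ) (ν : Measure Tor) [IsProbabilityMeasure ν]
    (hν : μ.map (fun y : ℝ => (y : Tor)) = ν) (h2 : MeasurePreserving (T 2) ν ν)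
    (h3 : MeasurePreserving (T 3) ν ν) (hE : Erg (ft ν)) (Z : Set Tor) (hZ : Z.Finite)
    (hνZ : ν Zᶜ = 0) : MovingAverages μ := by
  have := h.prob
  have hmeas : Measurable (fun y : ℝ => (y : Tor)) := AddCircle.measurable_mk'
  intro m hm
  obtain ⟨c, hc, hc'⟩ := exists_lower ν Z hZ hνZ
  have hint : ∫ y, e (m * y) ∂μ = ft ν m := integral_eq_ft ν hν m
  have hdev : ∀ ε : ℝ, 0 < ε → ∃ K : ℕ, ∀ I J : ℕ, K ≤ I → K ≤ J → μ (dev μ I J m ε) = 0 := by
    intro ε hε
    obtain ⟨K, hK⟩ := box_averages h2 h3 hE m (c / 2 * ε ^ 2) (by positivity)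
    refine ⟨K, fun I J hI hJ => ?_⟩
    set A : Set Tor := {x | ε < ‖Bx m I J x - ft ν m‖} with hA
    have hAm : MeasurableSet A :=
      (isOpen_lt continuous_const (((continuous_Bx m I J).sub continuous_const).norm)).measurableSet
    have h4 : dev μ I J m ε = (fun y : ℝ => (y : Tor)) ⁻¹' A := by
      ext x
      show ε < ‖avg I J (fun y => e (m * y)) x - ∫ y, e (m * y) ∂μ‖ ↔ _
      rw [hint, avg_eq_Bx]
      rfl
    rw [h4, ← Measure.map_apply hmeas hAm, hν]
    apply hc'
    have h5 := mul_meas_ge_le_integral_of_nonneg (μ := ν)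
      (f := fun x => ‖Bx m I J x - ft ν m‖ ^ 2) (Eventually.of_forall fun x => by positivity)
      (integrable_Bx m I J (ft ν m)) (ε ^ 2)
    have h6 : ν.real A ≤ ν.real {x | ε ^ 2 ≤ ‖Bx m I J x - ft ν m‖ ^ 2} := by
      refine measureReal_mono ?_ (measure_ne_top _ _)
      intro x hx
      have hx' : ε < ‖Bx m I J x - ft ν m‖ := hx
      show ε ^ 2 ≤ ‖Bx m I J x - ft ν m‖ ^ 2
      gcongr
    have h7 := hK I J hI hJ
    have h8 : ε ^ 2 * ν.real A ≤ c / 2 * ε ^ 2 :=
      (mul_le_mul_of_nonneg_left h6 (by positivity)).trans (h5.trans h7)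
    have h9 : 0 < ε ^ 2 := by positivity
    have h10 : ν.real A ≤ c / 2 := by
      by_contra hcon
      push Not at hcon
      nlinarith
    linarith
  choose K hK using fun k : ℕ => hdev (1 / ((k : ℝ) + 1)) (by positivity)
  have hall : ∀ᵐ x ∂μ, ∀ (k q i : ℕ), 200 * K k + 200 ≤ q →
      (2 : ℝ) ^ i * x ∉ dev μ (q / 200) (2 ^ q) m (1 / ((k : ℝ) + 1)) := by
    rw [ae_all_iff]
    intro k
    rw [ae_all_iff]
    intro q
    rw [ae_all_iff]
    intro i
    by_cases hq : 200 * K k + 200 ≤ q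
    · have h6 : K k ≤ 2 ^ q := by
        have : q < 2 ^ q := Nat.lt_two_pow_self
        omega
      have h7 : μ.real {x : ℝ | (2 : ℝ) ^ i * x ∈ dev μ (q / 200) (2 ^ q) m (1 / ((k : ℝ) + 1))} =
          0 := by
        rw [real_mul_dev h (q / 200) (2 ^ q) m _ i, Measure.real,
          hK k (q / 200) (2 ^ q) (by omega) h6]
        rfl
      rw [Measure.real, ENNReal.toReal_eq_zero_iff] at h7
      have h8 := h7.resolve_right (measure_ne_top _ _)
      filter_upwards [measure_eq_zero_iff_ae_notMem.mp h8] with x hx _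
      exact hx
    · exact Eventually.of_forall fun x hq' => absurd hq' hq
  filter_upwards [hall] with x hx ε hε
  obtain ⟨k, hk⟩ := exists_nat_one_div_lt hε
  refine ⟨200 * K k + 200, fun q hq i hi => ?_⟩
  by_contra hcon
  push Not at hcon
  exact hx k q i hq (hk.trans hcon)

end Pool.Agent.Helper40.TMA
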