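import Mathlib
import Pool.Agent.Helper40.TMA.Defs
import Pool.Agent.Helper40.TMA.Stage3
import Pool.Agent.Helper61.FR.Core

/-!
# Thin moving averages: if they converge then the measure is Lebesgue or has an atom
-/

set_option autoImplicit false

open MeasureTheory Finset Filter

namespace Pool.Agent.Helper40.TMA

open Pool.Agent.Helper61.FR

/-- The one-step bounds of stage 1 give zero entropy, quantitatively: at some scale `20 s` the
entropy is at most `s log 2 / 4`. -/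
lemma exists_small_entropy {μ : Measure ℝ} (h : Inv23 μ) (M : ℕ → ℕ)
    (hM : ∀ q, 200 ≤ q → 1 ≤ M q ∧ 200 * M q ≤ q) (m : ℕ) (hm : 1 ≤ m)
    (hφ : ∫ y, e (m * y) ∂μ ≠ 0)
    (hW : ∃ N : ℕ, ∀ q, N ≤ q →
      μ.real (dev μ (M q) (2 ^ q) m (‖∫ y, e (m * y) ∂μ‖ / 4)) ≤ 1 / 1000) :
    ∃ s : ℕ, 3 ≤ s ∧ ent (pr μ) (2 ^ (20 * s)) ≤ s * Real.log 2 / 4 := by
  set φ : ℂ := ∫ y, e (m * y) ∂μ with hφd
  have hφ0 : 0 < ‖φ‖ := norm_pos_iff.mpr hφ
  have hl2 : 0 < Real.log 2 := Real.log_pos (by norm_num)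
  set c₁ : ℝ := Real.log (16 * m / (1 / 1000 * ‖φ‖ ^ 2)) + 1 with hc₁
  -- choose `n`
  have hlog : Tendsto (fun n : ℕ => (n : ℝ) * Real.log 2 * (3 / 1000)) atTop atTop :=
    (tendsto_natCast_atTop_atTop.atTop_mul_const hl2).atTop_mul_const (by norm_num)
  have hgeo : Tendsto (fun n : ℕ => 2 * Real.pi * m * (3 / 4 : ℝ) ^ n) atTop (nhds 0) := by
    have := (tendsto_pow_atTop_nhds_zero_of_lt_one (r := (3 / 4 : ℝ)) (by norm_num)
      (by norm_num)).const_mul (2 * Real.pi * m)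
    simpa using this
  have hgeo2 : Tendsto (fun n : ℕ => 8 * m * (3 / 4 : ℝ) ^ n) atTop (nhds 0) := by
    have := (tendsto_pow_atTop_nhds_zero_of_lt_one (r := (3 / 4 : ℝ)) (by norm_num)
      (by norm_num)).const_mul (8 * (m : ℝ))
    simpa using this
  obtain ⟨N, hN⟩ := hW
  obtain ⟨n, hn1, hn2, hn3, hn4, hn5⟩ := ((eventually_ge_atTop 200).and
    ((hlog.eventually_ge_atTop c₁).and ((hgeo.eventually_lt_const (u := ‖φ‖ / 4) (by positivity)).and
    ((hgeo2.eventually_lt_const (u := (1 : ℝ)) (by norm_num)).and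
    (eventually_ge_atTop N))))).exists
  obtain ⟨hM1, hM2⟩ := hM n hn1
  have hn0 : (0 : ℝ) < n := by exact_mod_cast (by omega : 0 < n)
  -- `2 ^ M ≤ (3 / 4) ^ n 2 ^ n`
  have hpow : (2 : ℝ) ^ (M n) ≤ (3 / 4) ^ n * 2 ^ n := by
    rw [← mul_pow]
    have h1 : (2 : ℝ) ≤ (3 / 2) ^ 2 := by norm_num
    have h2 : (2 : ℝ) ^ (M n) ≤ ((3 / 2) ^ 2) ^ (M n) := pow_le_pow_left₀ (by norm_num) h1 _
    rw [← pow_mul] at h2
    refine h2.trans ?_
    norm_num
    exact pow_le_pow_right₀ (by norm_num) (by omega)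
  have h2n0 : (0 : ℝ) < 2 ^ n := by positivity
  have hm0 : (0 : ℝ) ≤ m := by positivity
  have hcond1 : m * 2 ^ (M n + 3) ≤ 2 ^ n := by
    have : (m * 2 ^ (M n + 3) : ℝ) ≤ 2 ^ n := by
      rw [pow_add]
      calc (m * (2 ^ (M n) * 2 ^ 3) : ℝ) ≤ m * ((3 / 4) ^ n * 2 ^ n * 2 ^ 3) := by gcongr
        _ = (8 * m * (3 / 4) ^ n) * 2 ^ n := by ring
        _ ≤ 1 * 2 ^ n := by gcongr
        _ = 2 ^ n := one_mul _
    exact_mod_cast this
  have hcond2 : 2 * Real.pi * m * 2 ^ (M n) / 2 ^ n ≤ ‖φ‖ / 4 := by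
    rw [div_le_iff₀ h2n0]
    calc 2 * Real.pi * m * 2 ^ (M n) ≤ 2 * Real.pi * m * ((3 / 4) ^ n * 2 ^ n) := by gcongr
      _ = (2 * Real.pi * m * (3 / 4) ^ n) * 2 ^ n := by ring
      _ ≤ ‖φ‖ / 4 * 2 ^ n := by gcongr
  have hb : μ.real (dev μ (M n) (2 ^ n) m (‖φ‖ / 4)) ≤ 1 / 1000 := hN n hn5
  have hstep := step_le h m n (M n) hm hM1 hcond1 (1 / 1000) (1 / 1000) (by norm_num) (by norm_num)
    hφ hb hcond2
  have hp := profile_pr h
  set D : ℕ := 3 ^ (2 ^ n) with hD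
  have hD1 : 1 ≤ D := Nat.one_le_pow _ _ (by norm_num)
  have hstep' : ent (pr μ) (D * 2 ^ n) - ent (pr μ) D ≤ n * Real.log 2 / 100 := by
    have hMn : (M n : ℝ) ≤ n / 200 := by
      have : (200 * M n : ℝ) ≤ n := by exact_mod_cast hM2
      linarith
    have := mul_le_mul_of_nonneg_right hMn hl2.le
    have h5 : c₁ ≤ n * Real.log 2 * (3 / 1000) := hn2
    have h6 : ent (pr μ) (D * 2 ^ n) ≤ ent (pr μ) D +
      (1 / 1000 + 1 / 1000) * (n * Real.log 2) + M n * Real.log 2 + c₁ := hstep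
    linarith
  -- choose `s`
  set k' : ℕ := 40 * 2 ^ n with hk'
  refine ⟨n * k', ?_, ?_⟩
  · have : 1 ≤ k' := by
      have : 1 ≤ 2 ^ n := Nat.one_le_two_pow
      omega
    nlinarith
  have e0 : 20 * (n * k') = (20 * k') * n := by ring
  have h7 := ent_chain hp D n (20 * k') hD1
  have h8 := ent_mono hp (2 ^ (20 * (n * k'))) D Nat.one_le_two_pow hD1
  have h9 := ent_le_log hp D hD1
  rw [mul_comm (2 ^ (20 * (n * k'))) D, e0] at h8
  rw [e0]
  have hlogD : Real.log D ≤ 2 ^ n * (2 * Real.log 2) := by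
    rw [hD]
    push_cast
    rw [Real.log_pow]
    have : Real.log 3 ≤ 2 * Real.log 2 := by
      rw [← Real.log_rpow (by norm_num)]
      exact Real.log_le_log (by norm_num) (by norm_num)
    push_cast
    gcongr
  have h10 : ((20 * k' : ℕ) : ℝ) * (ent (pr μ) (D * 2 ^ n) - ent (pr μ) D) ≤
      ((20 * k' : ℕ) : ℝ) * (n * Real.log 2 / 100) :=
    mul_le_mul_of_nonneg_left hstep' (Nat.cast_nonneg _)
  have h11 : (2 : ℝ) ^ n * (2 * Real.log 2) ≤ (n * k' : ℕ) * Real.log 2 / 20 := by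
    rw [hk']
    push_cast
    have h12 : (1 : ℝ) ≤ n := by exact_mod_cast (by omega : 1 ≤ n)
    have h13 : 0 ≤ (2 : ℝ) ^ n * Real.log 2 := by positivity
    nlinarith
  calc ent (pr μ) (2 ^ (20 * k' * n)) ≤ ent (pr μ) (D * 2 ^ (20 * k' * n)) := h8
    _ ≤ ent (pr μ) D + ((20 * k' : ℕ) : ℝ) * (ent (pr μ) (D * 2 ^ n) - ent (pr μ) D) := h7
    _ ≤ (n * k' : ℕ) * Real.log 2 / 20 + ((20 * k' : ℕ) : ℝ) * (n * Real.log 2 / 100) := by
        linarith
    _ = ((n * k' : ℕ) : ℝ) * Real.log 2 / 4 := by push_cast; ring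

/-- **Thin moving averages, first half.**  Let `μ` be a `×2, ×3`-invariant probability measure
without atoms whose thin moving averages converge.  Then `μ` is Lebesgue measure. -/
theorem lebesgue_of_tma {μ : Measure ℝ} (h : Inv23 μ) (h0 : ∀ x, μ {x} = 0) (M : ℕ → ℕ)
    (hM : ∀ q, 200 ≤ q → 1 ≤ M q ∧ 200 * M q ≤ q) (hT : TMA μ M)
    (m : ℕ) (hm : 1 ≤ m) : ∫ y, e (m * y) ∂μ = 0 := by
  by_contra hφ
  have := h.prob
  obtain ⟨s, hs, hent⟩ := exists_small_entropy h M hM m hm hφ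
    (hT.dev_le h m hm _ _ (by have := norm_pos_iff.mpr hφ; positivity) (by norm_num))
  obtain ⟨U, hUr, hUc, hUm⟩ := exists_thin (profile_pr h) s hs hent
  obtain ⟨S, η, hη, hS1, hSt⟩ := typical h (20 * s) U hUm
  set r := 20 * s with hr
  -- the typical points
  set G : ℕ → Set ℝ := fun q => {x | ∀ m ∈ S, x ∉ dev μ (M q) (2 ^ q) m η} with hG
  set ε : ℝ := min η (1 / (4 * (S.card + 1))) with hε
  have hε0 : 0 < ε := lt_min hη (by positivity)
  choose! Nm hNm using fun (m : ℕ) (hm : m ∈ S) => hT m (hS1 m hm) ε hε0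
  set q₀ : ℕ := S.sup Nm + 200 + 8 * r with hq₀
  have hc := stage3 h q₀ r M (by omega) (fun q hq => by
      have := (hM q (by omega)).2
      omega) G ?_ ?_
  · exact false_of_arcs h0 hc
  · intro q hq n' d τ x h1 h2 hd hτ hx hx'
    have hMq := (hM q (by omega)).1
    have h2q : 1 ≤ 2 ^ q := Nat.one_le_two_pow
    exact not_both_typical r U hUc (by omega) q (M q) n' hMq h1 h2 d hd τ x hτ
      (hSt (M q) (2 ^ q) hMq h2q x hx) (hSt (M q) (2 ^ q) hMq h2q _ hx')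
  · intro n Q
    -- the shift
    set Q' : ℕ := Q + n + q₀ with hQ'
    have hbig : n + 2 ^ (q₀ + 1) ≤ 3 * 2 ^ (Q' + 1) := by
      have h1 : n < 2 ^ (Q' + 1) := by
        calc n < 2 ^ n := Nat.lt_two_pow_self
          _ ≤ 2 ^ (Q' + 1) := Nat.pow_le_pow_right (by norm_num) (by omega)
      have h2 : 2 ^ (q₀ + 1) ≤ 2 ^ (Q' + 1) := Nat.pow_le_pow_right (by norm_num) (by omega)
      omega
    obtain ⟨p, hp⟩ : ∃ p, p + n + 2 ^ (q₀ + 1) = 3 * 2 ^ (Q' + 1) :=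
      ⟨3 * 2 ^ (Q' + 1) - (n + 2 ^ (q₀ + 1)), by omega⟩
    set E : Set ℝ := {x : ℝ | ∃ q, q₀ ≤ q ∧ q ≤ Q ∧ ∃ i ∈ RR q₀ q, i ≤ n ∧
      (2 : ℝ) ^ (n - i) * x ∉ G q} with hE
    have hGm : ∀ q, MeasurableSet (G q) := by
      intro q
      have : (G q)ᶜ = ⋃ m ∈ S, dev μ (M q) (2 ^ q) m η := by ext x; simp [hG]
      rw [← MeasurableSet.compl_iff, this]
      exact Finset.measurableSet_biUnion _ fun m _ => measurableSet_dev μ _ _ _ _
    have hEm : MeasurableSet E := by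
      have : E = ⋃ q ∈ Icc q₀ Q, ⋃ i ∈ (RR q₀ q).filter (· ≤ n),
          ((fun x : ℝ => (2 : ℝ) ^ (n - i) * x) ⁻¹' (G q)ᶜ) := by
        ext x
        simp only [hE, Set.mem_iUnion, Finset.mem_Icc, Finset.mem_filter, Set.mem_preimage,
          Set.mem_compl_iff, exists_prop]
        constructor
        · rintro ⟨q, h1, h2, i, h3, h4, h5⟩
          exact ⟨q, ⟨h1, h2⟩, i, ⟨h3, h4⟩, h5⟩
        · rintro ⟨q, ⟨h1, h2⟩, i, ⟨h3, h4⟩, h5⟩
          exact ⟨q, h1, h2, i, h3, h4, h5⟩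
      rw [this]
      exact Finset.measurableSet_biUnion _ fun q _ => Finset.measurableSet_biUnion _ fun i _ =>
        (measurable_const_mul _) (hGm q).compl
    have hpre := (preserving_two_pow h p).measureReal_preimage hEm.nullMeasurableSet
    rw [← hpre]
    have hsub : (fun x : ℝ => Int.fract (2 ^ p * x)) ⁻¹' E ⊆
        ⋃ m ∈ S, badEvent μ M m ε (Nm m) Q' := by
      rintro x ⟨q, h1, h2, i, h3, h4, h5⟩
      have h6 : ∃ m ∈ S, (2 : ℝ) ^ (n - i) * Int.fract (2 ^ p * x) ∈ dev μ (M q) (2 ^ q) m η := by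
        by_contra hcon
        push Not at hcon
        exact h5 hcon
      obtain ⟨m, hmS, h7⟩ := h6
      rw [mul_fract_mem_dev] at h7
      rw [Set.mem_iUnion₂]
      refine ⟨m, hmS, q, ?_, by omega, i + 2 ^ (q₀ + 1), ?_, ?_, ?_⟩
      · have := Finset.le_sup (f := Nm) hmS
        omega
      · unfold RR at h3
        rw [Finset.mem_Ico] at h3
        have h8 : 2 ^ q₀ ≤ 2 ^ q := Nat.pow_le_pow_right (by norm_num) h1
        have h9 : 2 ^ (q₀ + 1) = 2 * 2 ^ q₀ := by ring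
        have h10 : 2 ^ (q + 1) = 2 * 2 ^ q := by ring
        omega
      · unfold RR at h3
        rw [Finset.mem_Ico] at h3
        have h8 : 2 ^ q₀ ≤ 2 ^ q := Nat.pow_le_pow_right (by norm_num) h1
        have h9 : 2 ^ (q₀ + 1) = 2 * 2 ^ q₀ := by ring
        have h10 : 2 ^ (q + 1) = 2 * 2 ^ q := by ring
        have h11 : 2 ^ (q₀ + 1) = 2 * 2 ^ q₀ := by ring
        have h12 : q < 2 ^ q := Nat.lt_two_pow_self
        omega
      · have e1 : 3 * 2 ^ (Q' + 1) - (i + 2 ^ (q₀ + 1)) = n - i + p := by omega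
        rw [e1]
        exact dev_anti μ _ _ _ (min_le_left _ _) h7
    calc μ.real ((fun x : ℝ => Int.fract (2 ^ p * x)) ⁻¹' E)
        ≤ μ.real (⋃ m ∈ S, badEvent μ M m ε (Nm m) Q') := measureReal_mono hsub (measure_ne_top μ _)
      _ ≤ ∑ m ∈ S, μ.real (badEvent μ M m ε (Nm m) Q') := measureReal_biUnion_finset_le _ _
      _ ≤ ∑ m ∈ S, ε := sum_le_sum fun m hm => hNm m hm Q'
      _ = S.card * ε := by rw [sum_const, nsmul_eq_mul]
      _ ≤ S.card * (1 / (4 * (S.card + 1))) := by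
          gcongr
          exact min_le_right _ _
      _ ≤ 1 / 4 := by
          rw [mul_one_div, div_le_div_iff₀ (by positivity) (by norm_num)]
          linarith

end Pool.Agent.Helper40.TMA
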