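import Mathlib
import Pool.Agent.Helper40.TMA.Main
import Pool.Agent.Helper61.FR.Forward

/-!
# Moving averages along the past: a nonatomic invariant measure for which they converge is Lebesgue
-/

set_option autoImplicit false

open MeasureTheory Finset Filter

namespace Pool.Agent.Helper40.TMA

open Pool.Agent.Helper61.FR

lemma RR_le {q₀ q i : ℕ} (hq : q₀ ≤ q) (h : i ∈ RR q₀ q) : i ≤ 5 * 2 ^ q := by
  unfold RR at h
  rw [Finset.mem_Ico] at h
  have h10 : 2 ^ (q + 1) = 2 * 2 ^ q := by ring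
  have h12 : q < 2 ^ q := Nat.lt_two_pow_self
  have h13 : 1 ≤ 2 ^ q₀ := Nat.one_le_two_pow
  omega

/-- **Main theorem, past form.** -/
theorem tma {μ : Measure ℝ} (h : Inv23 μ) (h0 : ∀ x, μ {x} = 0) (M : ℕ → ℕ)
    (hM : ∀ q, 200 ≤ q → 1 ≤ M q ∧ 200 * M q ≤ q)
    (hE : ∀ m : ℕ, 1 ≤ m → ∀ η : ℝ, 0 < η → ∀ δ : ℝ, 0 < δ → ∃ N : ℕ, ∀ q, N ≤ q →
      μ.real (dev μ (M q) (2 ^ q) m η) ≤ δ)
    (H : ∀ S : Finset ℕ, (∀ m ∈ S, 1 ≤ m) → ∀ η : ℝ, 0 < η → ∃ q₀ : ℕ, ∀ n : ℕ,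
      3 / 4 ≤ μ.real {x | ∀ q, q₀ ≤ q → ∀ i, i ≤ n → i ≤ 5 * 2 ^ q →
        ∀ m ∈ S, Int.fract (2 ^ (n - i) * x) ∉ dev μ (M q) (2 ^ q) m η})
    (m : ℕ) (hm : 1 ≤ m) : ∫ y, e (m * y) ∂μ = 0 := by
  by_contra hφ
  have := h.prob
  obtain ⟨s, hs, hent⟩ := exists_small_entropy h M hM m hm hφ
    (hE m hm _ (by have := norm_pos_iff.mpr hφ; positivity) _ (by norm_num))
  obtain ⟨U, hUr, hUc, hUm⟩ := exists_thin (profile_pr h) s hs hent
  obtain ⟨S, η, hη, hS1, hSt⟩ := typical h (20 * s) U hUm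
  set r := 20 * s with hr
  -- the typical points
  set G : ℕ → Set ℝ := fun q => {x | ∀ m ∈ S, x ∉ dev μ (M q) (2 ^ q) m η} with hG
  obtain ⟨Nm, hNm⟩ := H S hS1 η hη
  set q₀ : ℕ := Nm + 200 + 8 * r with hq₀
  have hc := stage3 h q₀ r M (by omega) (fun q hq => by
      have := (hM q (by omega)).2
      omega) G ?_ ?_
  · exact false_of_arcs h0 hc
  · intro q hq n' d τ x h1 h2 hd hτ hx hx'
    have hMq := (hM q (by omega)).1
    have h2q : 1 ≤ 2 ^ q := Nat.one_le_two_pow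
    exact not_both_typical r U hUc (by omega) q (M q) n' hMq h1 h2 d hd τ x hτ
      (hSt (M q) (2 ^ q) hMq h2q x hx) (hSt (M q) (2 ^ q) hMq h2q _ hx')
  · intro n Q
    set E : Set ℝ := {x : ℝ | ∃ q, q₀ ≤ q ∧ q ≤ Q ∧ ∃ i ∈ RR q₀ q, i ≤ n ∧
      (2 : ℝ) ^ (n - i) * x ∉ G q} with hE
    set F : Set ℝ := {x | ∀ q, Nm ≤ q → ∀ i, i ≤ n → i ≤ 5 * 2 ^ q →
        ∀ m ∈ S, Int.fract (2 ^ (n - i) * x) ∉ dev μ (M q) (2 ^ q) m η} with hF
    have hGm : ∀ q, MeasurableSet (G q) := by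
      intro q
      have : (G q)ᶜ = ⋃ m ∈ S, dev μ (M q) (2 ^ q) m η := by ext x; simp [hG]
      rw [← MeasurableSet.compl_iff, this]
      exact Finset.measurableSet_biUnion _ fun m _ => measurableSet_dev μ _ _ _ _
    have hEm : MeasurableSet E := by
      have : E = ⋃ q ∈ Icc q₀ Q, ⋃ i ∈ (RR q₀ q).filter (· ≤ n),
          ((fun x : ℝ => (2 : ℝ) ^ (n - i) * x) ⁻¹' (G q)ᶜ) := by
        ext x
        simp only [hE, Set.mem_iUnion, Finset.mem_Icc, Finset.mem_filter, Set.mem_preimage,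
          Set.mem_compl_iff, exists_prop]
        constructor
        · rintro ⟨q, h1, h2, i, h3, h4, h5⟩
          exact ⟨q, ⟨h1, h2⟩, i, ⟨h3, h4⟩, h5⟩
        · rintro ⟨q, ⟨h1, h2⟩, i, ⟨h3, h4⟩, h5⟩
          exact ⟨q, h1, h2, i, h3, h4, h5⟩
      rw [this]
      exact Finset.measurableSet_biUnion _ fun q _ => Finset.measurableSet_biUnion _ fun i _ =>
        (measurable_const_mul _) (hGm q).compl
    have hsub : F ⊆ Eᶜ := by
      rintro x hx ⟨q, h1, h2, i, h3, h4, h5⟩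
      apply h5
      intro m hmS
      rw [← fract_mem_dev]
      exact hx q (by omega) i h4 (RR_le h1 h3) m hmS
    have h6 : 3 / 4 ≤ μ.real Eᶜ := (hNm n).trans (measureReal_mono hsub (measure_ne_top μ _))
    rw [probReal_compl_eq_one_sub hEm] at h6
    linarith

/-- **Main theorem, forward form.**  If, for almost every point, the averages over the boxes
`M q × 2 ^ q` at the points `2 ^ i * x`, `i ≤ 2 ^ q`, converge to the mean uniformly in `i`, for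
every character, and if the measure has no atoms, then it is Lebesgue measure. -/
theorem lebesgue_of_forward {μ : Measure ℝ} (h : Inv23 μ) (h0 : ∀ x, μ {x} = 0) (M : ℕ → ℕ)
    (hM : ∀ q, 200 ≤ q → 1 ≤ M q ∧ 200 * M q ≤ q)
    (hF : ∀ m : ℕ, 1 ≤ m → ∀ᵐ x ∂μ, ∀ ε : ℝ, 0 < ε → ∃ Q : ℕ, ∀ q, Q ≤ q → ∀ i, i ≤ 2 ^ q →
      ‖avg (M q) (2 ^ q) (fun y => e (m * y)) (2 ^ i * x) - ∫ y, e (m * y) ∂μ‖ ≤ ε)
    (m : ℕ) (hm : 1 ≤ m) : ∫ y, e (m * y) ∂μ = 0 := by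
  have := h.prob
  refine tma h h0 M hM ?_ (past_of_forward h M hF) m hm
  intro m hm η hη δ hδ
  -- convergence in measure
  have hanti : Antitone fun q₀ => (goodSet μ M {m} η q₀)ᶜ := by
    intro a b hab x hx hx'
    exact hx fun q hq => hx' q (hab.trans hq)
  have hinter : μ (⋂ q₀, (goodSet μ M {m} η q₀)ᶜ) = 0 := by
    rw [← compl_mem_ae_iff]
    filter_upwards [hF m hm] with x hx
    simp only [Set.mem_compl_iff, Set.mem_iInter, not_forall, not_not]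
    obtain ⟨Q, hQ⟩ := hx η hη
    refine ⟨Q, fun q hq i hi m' hm' hdev => ?_⟩
    rw [Finset.mem_singleton] at hm'
    subst hm'
    exact absurd (hQ q hq i hi) (not_le.mpr hdev)
  have htend : Tendsto (fun q₀ => μ (goodSet μ M {m} η q₀)ᶜ) atTop (nhds 0) := by
    rw [← hinter]
    exact tendsto_measure_iInter_atTop
      (fun q => (measurableSet_goodSet μ M {m} η q).compl.nullMeasurableSet) hanti
      ⟨0, measure_ne_top μ _⟩
  have h32 : (0 : ENNReal) < ENNReal.ofReal δ := by rwa [ENNReal.ofReal_pos]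
  obtain ⟨q₀, hq₀⟩ := (htend.eventually (gt_mem_nhds h32)).exists
  refine ⟨q₀, fun q hq => ?_⟩
  have hsub : dev μ (M q) (2 ^ q) m η ⊆ (goodSet μ M {m} η q₀)ᶜ := by
    intro x hx hx'
    exact hx' q hq 0 (Nat.zero_le _) m (Finset.mem_singleton_self m) (by simpa using hx)
  refine (measureReal_mono hsub (measure_ne_top μ _)).trans ?_
  rw [measureReal_def]
  have := ENNReal.toReal_mono ENNReal.ofReal_ne_top hq₀.le
  rwa [ENNReal.toReal_ofReal hδ.le] at this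

end Pool.Agent.Helper40.TMA
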