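import Mathlib
import Pool.Agent.Helper40.TMA.Past
import Pool.Agent.Helper40.TMA.Converse
import Pool.Agent.Helper61.FR.Circle

/-!
# Thin moving averages on the circle
-/

set_option autoImplicit false

open MeasureTheory Filter Topology Finset
open scoped ENNReal ComplexConjugate

namespace Pool.Agent.Helper40.TMA

open Helper58.FX (ft Erg T)
open Pool.Agent.Helper61.FR

/-- **Convergence of the thin moving averages** on the circle: for every character and almost every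
`x`, the averages over the boxes `q / 200` times `2 ^ q` at the points `2 ^ i x`, `i ≤ 2 ^ q`,
converge to the mean of the character, uniformly in `i`, as `q → ∞`. -/
def CMoving (ν : Measure Tor) : Prop :=
  ∀ m : ℕ, 1 ≤ m → ∀ᵐ x ∂ν, ∀ ε : ℝ, 0 < ε → ∃ Q : ℕ, ∀ q, Q ≤ q → ∀ i, i ≤ 2 ^ q →
    ‖cavg (q / 200) (2 ^ q) m ((2 ^ i : ℕ) • x) - ∫ y, (fourier (m : ℤ) y : ℂ) ∂ν‖ ≤ ε

lemma measurableSet_moving (m : ℤ) (c : ℂ) : MeasurableSet {x : Tor | ∀ ε : ℝ, 0 < ε → ∃ Q : ℕ,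
    ∀ q, Q ≤ q → ∀ i, i ≤ 2 ^ q → ‖cavg (q / 200) (2 ^ q) m ((2 ^ i : ℕ) • x) - c‖ ≤ ε} := by
  have e1 : {x : Tor | ∀ ε : ℝ, 0 < ε → ∃ Q : ℕ,
      ∀ q, Q ≤ q → ∀ i, i ≤ 2 ^ q → ‖cavg (q / 200) (2 ^ q) m ((2 ^ i : ℕ) • x) - c‖ ≤ ε} =
      ⋂ k : ℕ, ⋃ Q : ℕ, ⋂ q : ℕ, ⋂ (_ : Q ≤ q), ⋂ i : ℕ, ⋂ (_ : i ≤ 2 ^ q),
        {x : Tor | ‖cavg (q / 200) (2 ^ q) m ((2 ^ i : ℕ) • x) - c‖ ≤ 1 / ((k : ℝ) + 1)} := by
    ext x
    simp only [Set.mem_ofPred_eq, Set.mem_iInter, Set.mem_iUnion]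
    constructor
    · intro h k
      exact h _ (by positivity)
    · intro h ε hε
      obtain ⟨k, hk⟩ := exists_nat_one_div_lt hε
      obtain ⟨Q, hQ⟩ := h k
      exact ⟨Q, fun q hq i hi => (hQ q hq i hi).trans hk.le⟩
  rw [e1]
  refine MeasurableSet.iInter fun k => MeasurableSet.iUnion fun Q => MeasurableSet.iInter fun q =>
    MeasurableSet.iInter fun _ => MeasurableSet.iInter fun i => MeasurableSet.iInter fun _ => ?_
  refine (isClosed_le ?_ continuous_const).measurableSet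
  exact (((continuous_cavg _ _ _).comp (continuous_nsmul _)).sub continuous_const).norm

lemma nsmul_coe (i : ℕ) (y : ℝ) : ((2 ^ i : ℕ) • (y : Tor)) = ((2 ^ i * y : ℝ) : Tor) := by
  rw [← AddCircle.coe_nsmul, nsmul_eq_mul]
  push_cast
  rfl

theorem moving_iff {ρ : Measure ℝ} {ν : Measure Tor}
    (hν : ρ.map (fun y : ℝ => (y : Tor)) = ν) : MovingAverages ρ ↔ CMoving ν := by
  unfold MovingAverages CMoving
  refine forall_congr' fun m => forall_congr' fun hm => ?_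
  have hc : ∫ y, (fourier (m : ℤ) y : ℂ) ∂ν = ∫ y, e (m * y) ∂ρ := by
    rw [integral_fourier_eq hν]
    unfold cf
    push_cast
    rfl
  rw [hc, ← hν, ae_map_iff measurable_coe_circle.aemeasurable (measurableSet_moving (m : ℤ) _)]
  have h1 : ∀ y : ℝ, ∀ q i : ℕ, cavg (q / 200) (2 ^ q) m ((2 ^ i : ℕ) • (y : Tor)) =
      avg (q / 200) (2 ^ q) (fun y => e (m * y)) (2 ^ i * y) := by
    intro y q i
    rw [nsmul_coe, cavg_coe]
  simp only [h1]

/-- Lebesgue measure. -/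
theorem cmoving_lebesgue {ν : Measure Tor} [IsProbabilityMeasure ν]
    (h2 : MeasurePreserving (fun x : Tor => (2 : ℕ) • x) ν ν)
    (h3 : MeasurePreserving (fun x : Tor => (3 : ℕ) • x) ν ν)
    (hL : ∀ m : ℕ, 1 ≤ m → ∫ y, (fourier (m : ℤ) y : ℂ) ∂ν = 0) : CMoving ν := by
  obtain ⟨ρ, hρ, hν, -⟩ := exists_inv23 ν h2 h3
  rw [← moving_iff hν]
  refine forward_lebesgue hρ fun m hm => ?_
  rw [← hL m hm, integral_fourier_eq hν]
  unfold cf
  push_cast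
  rfl

/-- Finitely supported ergodic measures. -/
theorem cmoving_finite {ν : Measure Tor} [IsProbabilityMeasure ν]
    (h2 : MeasurePreserving (fun x : Tor => (2 : ℕ) • x) ν ν)
    (h3 : MeasurePreserving (fun x : Tor => (3 : ℕ) • x) ν ν) (hE : Erg (ft ν)) (Z : Set Tor)
    (hZ : Z.Finite) (hνZ : ν Zᶜ = 0) : CMoving ν := by
  obtain ⟨ρ, hρ, hν, -⟩ := exists_inv23 ν h2 h3
  rw [← moving_iff hν]
  exact forward_finite hρ ν hν h2 h3 hE Z hZ hνZ

/-- **Main theorem on the circle.** -/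
theorem lebesgue_of_cmoving {ν : Measure Tor} [IsProbabilityMeasure ν]
    (h2 : MeasurePreserving (fun x : Tor => (2 : ℕ) • x) ν ν)
    (h3 : MeasurePreserving (fun x : Tor => (3 : ℕ) • x) ν ν) (h0 : ∀ x, ν {x} = 0)
    (hM : CMoving ν) (m : ℕ) (hm : 1 ≤ m) : ∫ y, (fourier (m : ℤ) y : ℂ) ∂ν = 0 := by
  obtain ⟨ρ, hρ, hν, hat⟩ := exists_inv23 ν h2 h3
  rw [← moving_iff hν] at hM
  have h5 := lebesgue_of_forward hρ (hat h0) (fun q => q / 200) (fun q hq => by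
    show 1 ≤ q / 200 ∧ 200 * (q / 200) ≤ q
    omega) hM m hm
  rw [integral_fourier_eq hν, ← h5]
  unfold cf
  push_cast
  rfl

end Pool.Agent.Helper40.TMA
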