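import Mathlib
import Pool.Agent.Helper40.TMA.Lebesgue
import Pool.Agent.Helper40.TMA.Finite
import Pool.Agent.Helper61.FR.Circle

/-!
# Summable deviations on the circle: Lebesgue measure and finitely supported ergodic measures
-/

set_option autoImplicit false

open MeasureTheory Filter Topology Finset
open scoped ENNReal ComplexConjugate

namespace Pool.Agent.Helper40.TMA

open Helper58.FX (ft Erg T)
open Helper58.FH (Bx continuous_Bx integrable_Bx)
open Pool.Agent.Helper61.FR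

theorem cavg_eq_Bx (m I J : ℕ) (x : Tor) : cavg I J m x = Bx m I J x := by
  obtain ⟨y, rfl⟩ := QuotientAddGroup.mk_surjective x
  have h1 := cavg_coe I J m y
  have h2 := avg_eq_Bx m I J y
  exact h1.trans h2

theorem cf_of_all_zero {ν : Measure Tor} {ρ : Measure ℝ}
    (hν : ρ.map (fun y : ℝ => (y : Tor)) = ν)
    (hL : ∀ m : ℕ, 1 ≤ m → ∫ y, (fourier (m : ℤ) y : ℂ) ∂ν = 0) (n : ℤ) (hn : n ≠ 0) :
    cf ρ n = 0 := by
  rcases lt_or_gt_of_ne hn with hn | hn
  · have h1 := cf_neg ρ (-n)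
    rw [neg_neg] at h1
    have h3 := hL (-n).toNat (by omega)
    rw [show (((-n).toNat : ℕ) : ℤ) = -n by omega, integral_fourier_eq hν] at h3
    rw [h1, h3, star_zero]
  · have h3 := hL n.toNat (by omega)
    rwa [show ((n.toNat : ℕ) : ℤ) = n by omega, integral_fourier_eq hν] at h3

/-- Lebesgue measure satisfies the large deviation bound. -/
theorem summable_lebesgue_circle {ν : Measure Tor} [IsProbabilityMeasure ν]
    (h2 : MeasurePreserving (fun x : Tor => (2 : ℕ) • x) ν ν)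
    (h3 : MeasurePreserving (fun x : Tor => (3 : ℕ) • x) ν ν)
    (hL : ∀ m : ℕ, 1 ≤ m → ∫ y, (fourier (m : ℤ) y : ℂ) ∂ν = 0) (m : ℕ) (hm : 1 ≤ m) (η : ℝ)
    (hη : 0 < η) :
    Summable fun q : ℕ => (2 ^ q / q : ℝ) *
      ν.real {x | η < ‖cavg (q / 200) (2 ^ q) m x - ∫ y, (fourier (m : ℤ) y : ℂ) ∂ν‖} := by
  obtain ⟨ρ, hρ, hν, -⟩ := exists_inv23 ν h2 h3
  refine summable_of_moment (fun q => q / 200) (m : ℤ) _ 2 400 1 two_pos one_pos ?_ η hη
  intro q hq
  simp only [Real.rpow_two, Real.rpow_one]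
  rw [integral_var_eq hν, variance_lebesgue hρ (cf_of_all_zero hν hL) (q / 200) (2 ^ q) m
    (by omega) Nat.one_le_two_pow hm]
  have hq0 : (0 : ℝ) < q := by exact_mod_cast (by omega : 0 < q)
  have hM0 : (0 : ℝ) < ((q / 200 : ℕ) : ℝ) := by exact_mod_cast (by omega : 0 < q / 200)
  have h1 : (q : ℝ) ≤ 400 * ((q / 200 : ℕ) : ℝ) := by
    exact_mod_cast (by omega : q ≤ 400 * (q / 200))
  rw [div_le_div_iff₀ (by positivity) (by positivity)]
  push_cast
  have h2 : (0 : ℝ) < 2 ^ q := by positivity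
  nlinarith

/-- For a finitely supported ergodic measure the averages over large boxes do not deviate. -/
theorem null_of_finite {ν : Measure Tor} [IsProbabilityMeasure ν]
    (h2 : MeasurePreserving (T 2) ν ν) (h3 : MeasurePreserving (T 3) ν ν) (hE : Erg (ft ν))
    (Z : Set Tor) (hZ : Z.Finite) (hνZ : ν Zᶜ = 0) (m : ℕ) (ε : ℝ) (hε : 0 < ε) :
    ∃ K : ℕ, ∀ I J : ℕ, K ≤ I → K ≤ J → ν {x | ε < ‖Bx m I J x - ft ν m‖} = 0 := by
  obtain ⟨c, hc, hc'⟩ := exists_lower ν Z hZ hνZ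
  obtain ⟨K, hK⟩ := box_averages h2 h3 hE m (c / 2 * ε ^ 2) (by positivity)
  refine ⟨K, fun I J hI hJ => ?_⟩
  set A : Set Tor := {x | ε < ‖Bx m I J x - ft ν m‖} with hA
  apply hc'
  have h5 := mul_meas_ge_le_integral_of_nonneg (μ := ν)
    (f := fun x => ‖Bx m I J x - ft ν m‖ ^ 2) (Eventually.of_forall fun x => by positivity)
    (integrable_Bx m I J (ft ν m)) (ε ^ 2)
  have h6 : ν.real A ≤ ν.real {x | ε ^ 2 ≤ ‖Bx m I J x - ft ν m‖ ^ 2} := by
    refine measureReal_mono ?_ (measure_ne_top _ _)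
    intro x hx
    have hx' : ε < ‖Bx m I J x - ft ν m‖ := hx
    show ε ^ 2 ≤ ‖Bx m I J x - ft ν m‖ ^ 2
    gcongr
  have h7 := hK I J hI hJ
  have h8 : ε ^ 2 * ν.real A ≤ c / 2 * ε ^ 2 :=
    (mul_le_mul_of_nonneg_left h6 (by positivity)).trans (h5.trans h7)
  have h9 : 0 < ε ^ 2 := by positivity
  have h10 : ν.real A ≤ c / 2 := by
    by_contra hcon
    push Not at hcon
    nlinarith
  linarith

/-- A finitely supported ergodic measure satisfies the large deviation bound. -/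
theorem summable_finite_circle {ν : Measure Tor} [IsProbabilityMeasure ν]
    (h2 : MeasurePreserving (fun x : Tor => (2 : ℕ) • x) ν ν)
    (h3 : MeasurePreserving (fun x : Tor => (3 : ℕ) • x) ν ν) (hE : Erg (ft ν))
    (Z : Set Tor) (hZ : Z.Finite) (hνZ : ν Zᶜ = 0) (m : ℕ) (η : ℝ) (hη : 0 < η) :
    Summable fun q : ℕ => (2 ^ q / q : ℝ) *
      ν.real {x | η < ‖cavg (q / 200) (2 ^ q) m x - ∫ y, (fourier (m : ℤ) y : ℂ) ∂ν‖} := by
  obtain ⟨K, hK⟩ := null_of_finite h2 h3 hE Z hZ hνZ m η hη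
  rw [← summable_nat_add_iff (200 * K + 200)]
  refine summable_zero.congr fun q => ?_
  have h5 : K ≤ (q + (200 * K + 200)) / 200 := by omega
  have h6 : K ≤ 2 ^ (q + (200 * K + 200)) := by
    have : q + (200 * K + 200) < 2 ^ (q + (200 * K + 200)) := Nat.lt_two_pow_self
    omega
  have h7 := hK _ _ h5 h6
  simp only [cavg_eq_Bx, Measure.real]
  have h8 : ∫ y, (fourier (m : ℤ) y : ℂ) ∂ν = ft ν m := rfl
  rw [h8, h7]
  simp

end Pool.Agent.Helper40.TMA
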