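import Mathlib
import Pool.Agent.Helper17.Herglotz
import Pool.Agent.Helper40.TMA.TraceBase
import Pool.Agent.Helper40.TMA.SumCircle
import Pool.Agent.Helper63.FX.ExLikeOf

/-!
# The measure of an extreme trace
-/

set_option autoImplicit false

open MeasureTheory Filter Topology Finset Helper17.FU Helper17.FUGroup Helper91.TTT
open scoped ENNReal ComplexConjugate ComplexOrder InnerProductSpace

namespace Pool.Agent.Helper40.TMA

open Helper58.FX (ft Erg T)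
open Pool.Agent.Helper61.FR

variable {s2 s3 t : Equiv.Perm ℚ}

/-- The measure of a trace. -/
theorem exists_measure (h2 : ∀ x : ℚ, s2 x = 2 * x) (h3 : ∀ x : ℚ, s3 x = 3 * x)
    (ht : ∀ x : ℚ, t x = x + 1) {τ : GG s2 s3 t} (hτ : (τ : Equiv.Perm ℚ) = t)
    {φ : GG s2 s3 t → ℂ} (hφ : φ ∈ Set.extremePoints ℝ (TR (GG s2 s3 t))) :
    ∃ μ : Measure Tor, IsProbabilityMeasure μ ∧
      (∀ n : ℤ, ∫ x, (fourier n x : ℂ) ∂μ = φ (τ ^ n)) ∧
      MeasurePreserving (fun x : Tor => (2 : ℕ) • x) μ μ ∧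
      MeasurePreserving (fun x : Tor => (3 : ℕ) • x) μ μ := by
  have hφ1 : φ 1 = 1 := hφ.1.1
  have hφc := hφ.1.2.1
  have hFφ : Fact (PD φ) := ⟨hφ.1.2.2⟩
  obtain ⟨σ2, σ3, τ', hσ2, hσ3, hτ', e2, e3, ecomm, hgen⟩ := relations h2 h3 ht
  have hττ' : τ' = τ := Subtype.ext (by rw [hτ', hτ])
  rw [hττ'] at e2 e3 hgen
  -- the measure
  obtain ⟨μ, hμp, hμ⟩ := Helper17.Herglotz.herglotz (rf_pdz (φ := φ) τ 1)
    (by unfold rf; simp [hφ1])
  have hμ' : ∀ n : ℤ, ∫ x, (fourier n x : ℂ) ∂μ = φ (τ ^ n) := by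
    intro n
    rw [hμ n]; unfold rf; rw [one_mul]
  have hinv : ∀ N : ℕ, (∀ j : ℤ, φ (τ ^ ((N : ℤ) * j)) = φ (τ ^ j)) →
      MeasurePreserving (Helper17.TranslM.T N) μ μ := by
    intro N hN
    refine ⟨Helper17.TranslM.measurable_T N, ?_⟩
    have hp : IsProbabilityMeasure (μ.map (Helper17.TranslM.T N)) :=
      Measure.isProbabilityMeasure_map (Helper17.TranslM.measurable_T N).aemeasurable
    apply Helper17.TranslM.eq_of_fourier
    intro m
    rw [integral_map (Helper17.TranslM.measurable_T N).aemeasurable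
      (fourier m).continuous.aestronglyMeasurable, hμ' m, ← hN m, ← hμ']
    refine integral_congr_ae (Eventually.of_forall fun x => ?_)
    simp only [Helper17.TranslM.T, fourier_apply]
    congr 1
    congr 1
    rw [← natCast_zsmul, smul_smul, mul_comm]
  have hm2 : MeasurePreserving (fun x : AddCircle (1 : ℝ) => (2 : ℕ) • x) μ μ := by
    apply hinv 2
    intro j
    have := Helper17.FU.conj_pow e2 j
    rw [show ((2 : ℕ) : ℤ) * j = 2 * j by norm_num]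
    rw [← this, hφc]
  have hm3 : MeasurePreserving (fun x : AddCircle (1 : ℝ) => (3 : ℕ) • x) μ μ := by
    apply hinv 3
    intro j
    have := conj_pow3 e3 j
    rw [show ((3 : ℕ) : ℤ) * j = 3 * j by norm_num]
    rw [← this, hφc]
  exact ⟨μ, hμp, hμ', hm2, hm3⟩

/-- The measure of an exotic extreme trace has no atoms. -/
theorem no_atoms_of_exotic (h2 : ∀ x : ℚ, s2 x = 2 * x) (h3 : ∀ x : ℚ, s3 x = 3 * x)
    (ht : ∀ x : ℚ, t x = x + 1) {τ : GG s2 s3 t} (hτ : (τ : Equiv.Perm ℚ) = t)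
    {φ : GG s2 s3 t → ℂ} (hφ : φ ∈ Set.extremePoints ℝ (TR (GG s2 s3 t)))
    {μ : Measure Tor} [IsProbabilityMeasure μ]
    (hμ : ∀ n : ℤ, ∫ x, (fourier n x : ℂ) ∂μ = φ (τ ^ n))
    (hΔ : φ ≠ Set.indicator ({1} : Set (GG s2 s3 t)) (fun _ => (1 : ℂ)))
    (hfd : ¬ FiniteDimensional ℂ (Submodule.span ℂ {F : GG s2 s3 t → ℂ | ∃ n : GG s2 s3 t,
      IsTr n ∧ F = fun x => φ (n * x)})) (x : Tor) : μ {x} = 0 := by
  have hex := Helper63.FX.exlike_of_exotic h2 h3 ht hτ hφ hΔ hfd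
  obtain ⟨ν, hνp, hν, -, -, hat⟩ := hex.rep
  have hνμ : ν = μ := by
    apply Helper17.TranslM.eq_of_fourier
    intro m
    rw [hμ m]
    exact hν m
  rw [← hνμ]
  exact hat x

/-- If all the Fourier coefficients vanish then the trace is the regular one or finite
dimensional (it is the regular one). -/
theorem false_of_zero (h2 : ∀ x : ℚ, s2 x = 2 * x) (h3 : ∀ x : ℚ, s3 x = 3 * x)
    (ht : ∀ x : ℚ, t x = x + 1) {τ : GG s2 s3 t} (hτ : (τ : Equiv.Perm ℚ) = t)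
    {φ : GG s2 s3 t → ℂ} (hφ : φ ∈ Set.extremePoints ℝ (TR (GG s2 s3 t)))
    {μ : Measure Tor} (hμ : ∀ n : ℤ, ∫ x, (fourier n x : ℂ) ∂μ = φ (τ ^ n))
    (hΔ : φ ≠ Set.indicator ({1} : Set (GG s2 s3 t)) (fun _ => (1 : ℂ)))
    (hfd : ¬ FiniteDimensional ℂ (Submodule.span ℂ {F : GG s2 s3 t → ℂ | ∃ n : GG s2 s3 t,
      IsTr n ∧ F = fun x => φ (n * x)}))
    (hz : ∀ m : ℕ, 1 ≤ m → ∫ x, (fourier (m : ℤ) x : ℂ) ∂μ = 0) : False := by
  have hex := Helper63.FX.exlike_of_exotic h2 h3 ht hτ hφ hΔ hfd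
  obtain ⟨n, hn, hφn⟩ := hex.ne
  apply hφn
  show φ (τ ^ n) = 0
  rw [← hμ n]
  rcases lt_or_gt_of_ne hn with h | h
  · have h5 := hz (-n).toNat (by omega)
    rw [show (((-n).toNat : ℕ) : ℤ) = -n by omega] at h5
    have h6 : ∫ x, (fourier n x : ℂ) ∂μ = star (∫ x, (fourier (-n) x : ℂ) ∂μ) := by
      rw [RCLike.star_def, ← integral_conj]
      refine integral_congr_ae (Eventually.of_forall fun x => ?_)
      simp only [fourier_neg, RingHomCompTriple.comp_apply, RingHom.id_apply]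
    rw [h6, h5, star_zero]
  · have h5 := hz n.toNat (by omega)
    rwa [show ((n.toNat : ℕ) : ℤ) = n by omega] at h5

/-- The regular trace. -/
theorem zero_of_regular (ht : ∀ x : ℚ, t x = x + 1) {τ : GG s2 s3 t}
    (hτ : (τ : Equiv.Perm ℚ) = t) {φ : GG s2 s3 t → ℂ}
    (hΔ : φ = Set.indicator ({1} : Set (GG s2 s3 t)) (fun _ => (1 : ℂ))) (m : ℕ) (hm : 1 ≤ m) :
    φ (τ ^ (m : ℤ)) = 0 := by
  rw [hΔ, Set.indicator_of_notMem]
  intro h
  have h5 : (τ : Equiv.Perm ℚ) ^ (m : ℤ) = 1 := by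
    rw [← Subgroup.coe_zpow, show τ ^ (m : ℤ) = 1 from h, Subgroup.coe_one]
  have h6 := congrArg (fun f : Equiv.Perm ℚ => f 0) h5
  simp only [hτ] at h6
  rw [t_zpow ht] at h6
  simp only [Equiv.Perm.coe_one, id] at h6
  have : (m : ℚ) = 0 := by push_cast at h6; linarith
  have h7 : m = 0 := by exact_mod_cast this
  omega

/-- **The large deviation bound for the known extreme traces.** -/
theorem summable_of_known (h2 : ∀ x : ℚ, s2 x = 2 * x) (h3 : ∀ x : ℚ, s3 x = 3 * x)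
    (ht : ∀ x : ℚ, t x = x + 1) {τ : GG s2 s3 t} (hτ : (τ : Equiv.Perm ℚ) = t)
    {φ : GG s2 s3 t → ℂ} (hφ : φ ∈ Set.extremePoints ℝ (TR (GG s2 s3 t)))
    {μ : Measure Tor} [IsProbabilityMeasure μ]
    (hμ : ∀ n : ℤ, ∫ x, (fourier n x : ℂ) ∂μ = φ (τ ^ n))
    (hm2 : MeasurePreserving (fun x : Tor => (2 : ℕ) • x) μ μ)
    (hm3 : MeasurePreserving (fun x : Tor => (3 : ℕ) • x) μ μ)
    (hk : φ = Set.indicator ({1} : Set (GG s2 s3 t)) (fun _ => (1 : ℂ)) ∨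
      FiniteDimensional ℂ (Submodule.span ℂ {F : GG s2 s3 t → ℂ | ∃ n : GG s2 s3 t,
        IsTr n ∧ F = fun x => φ (n * x)})) (m : ℕ) (hm : 1 ≤ m) (η : ℝ) (hη : 0 < η) :
    Summable fun q : ℕ => (2 ^ q / q : ℝ) *
      μ.real {x | η < ‖cavg (q / 200) (2 ^ q) m x - ∫ y, (fourier (m : ℤ) y : ℂ) ∂μ‖} := by
  rcases hk with hΔ | hfd
  · exact summable_lebesgue_circle hm2 hm3 (fun m hm => by
      rw [hμ]; exact zero_of_regular ht hτ hΔ m hm) m hm η hη
  · obtain ⟨d, c, hc, hrec⟩ := exists_recurrence hτ ht hfd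
    obtain ⟨Z, hZ, hZ'⟩ := finite_support μ d c hc (fun m => by
      rw [← hrec m]
      refine Finset.sum_congr rfl fun j _ => ?_
      congr 1
      exact hμ _)
    exact summable_finite_circle hm2 hm3 (erg_of_extreme h2 h3 ht hτ hφ hμ) Z hZ hZ' m η hη

end Pool.Agent.Helper40.TMA
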