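import Mathlib
import Pool.Agent.Helper75.DF.St.D4

/-!
# Two points whose difference is close to a dyadic rational are not both typical: boxes

The proof of `Helper75.DF.not_both`, for boxes with `M` columns.
-/

set_option autoImplicit false

open Finset

namespace Pool.Agent.Helper40.TMA

open Pool.Agent.Helper61.FR Helper75.DF

theorem not_both_box (r : ℕ) (U : Finset ℕ) (hU : 48 * U.card ^ 2 < 2 ^ r) :
    ∃ n₀ : ℕ, ∀ W : ℕ → ℕ, Window W → ∃ q₀ : ℕ, ∀ q, q₀ ≤ q → ∀ M, 1 ≤ M → ∀ k, n₀ + M ≤ k →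
      k ≤ W q → ∀ d : ℤ, Odd d → ∀ τ x : ℝ, |τ| * 3 ^ (2 ^ q) * 2 ^ k ≤ 1 →
        7 * (M * 2 ^ q) ≤ 8 * cnt M (2 ^ q) (nbhd r U) x →
        7 * (M * 2 ^ q) ≤ 8 * cnt M (2 ^ q) (nbhd r U) (x + d / 2 ^ k + τ) → False := by
  classical
  obtain ⟨T, η, hη, hT, hcrit⟩ := criterion r U hU
  refine ⟨5 + r + ∑ h ∈ T, h, fun W hW => ?_⟩
  obtain ⟨q₀, hq₀⟩ := hW η hη
  refine ⟨q₀, fun q hq M hM k hk1 hk2 d hd τ x hτ hcA hcA' => ?_⟩
  set z : ℕ → ℕ → ℝ := fun a j => d * 3 ^ j / 2 ^ (k - a) with hz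
  have h1 : ∀ a, a < M → 2 * hits r U (2 ^ q) (z a) < 2 ^ q := by
    intro a ha
    refine hcrit (2 ^ q) (z a) Nat.one_le_two_pow fun h hh => ?_
    have hh1 := hT h hh
    obtain ⟨v, h', hodd, hv⟩ := Nat.exists_eq_two_pow_mul_odd (n := h) (by omega)
    have hvh : v < h := by
      have h2 : v < 2 ^ v := Nat.lt_two_pow_self
      have h3 : 1 ≤ h' := hodd.pos
      have h4 : 2 ^ v * 1 ≤ 2 ^ v * h' := Nat.mul_le_mul_left _ h3
      omega
    have hsum : h ≤ ∑ h ∈ T, h :=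
      Finset.single_le_sum (f := fun h => h) (fun _ _ => Nat.zero_le _) hh
    have h5 := hq₀ q hq (k - a - v) (by omega) (by omega) (h' * d) (by
      have : Odd (h' : ℤ) := by exact_mod_cast hodd
      exact this.mul hd)
    have h6 : ∀ j ∈ range (2 ^ q), e ((h : ℝ) * z a j) =
        e (((h' * d : ℤ) : ℝ) * 3 ^ j / 2 ^ (k - a - v)) := by
      intro j _
      congr 1
      have h7 : (2 : ℝ) ^ (k - a) = 2 ^ v * 2 ^ (k - a - v) := by
        rw [← pow_add]; congr 1; omega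
      have h8 : (h : ℝ) = 2 ^ v * h' := by rw [hv]; push_cast; ring
      rw [hz]
      simp only
      rw [h7, h8]
      push_cast
      field_simp
    rw [Finset.sum_congr rfl h6]
    push_cast at h5 ⊢
    exact h5
  -- both typical
  set A := (range M ×ˢ range (2 ^ q)).filter fun t => (2 : ℝ) ^ t.1 * 3 ^ t.2 * x ∈ nbhd r U
    with hA
  set A' := (range M ×ˢ range (2 ^ q)).filter fun t =>
    (2 : ℝ) ^ t.1 * 3 ^ t.2 * (x + d / 2 ^ k + τ) ∈ nbhd r U with hA'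
  have hcA1 : 7 * (M * 2 ^ q) ≤ 8 * A.card := by
    refine hcA.trans (le_of_eq ?_)
    unfold cnt
    rfl
  have hcA1' : 7 * (M * 2 ^ q) ≤ 8 * A'.card := by
    refine hcA'.trans (le_of_eq ?_)
    unfold cnt
    rfl
  have h3 : (A ∪ A').card + (A ∩ A').card = A.card + A'.card :=
    Finset.card_union_add_card_inter A A'
  have h4 : (A ∪ A').card ≤ M * 2 ^ q := by
    have : A ∪ A' ⊆ range M ×ˢ range (2 ^ q) :=
      Finset.union_subset (Finset.filter_subset _ _) (Finset.filter_subset _ _)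
    have h5 := Finset.card_le_card this
    rwa [Finset.card_product, Finset.card_range, Finset.card_range] at h5
  have hmaps : ∀ t ∈ A ∩ A', t.1 ∈ range M := by
    intro t ht
    exact (Finset.mem_product.1 (Finset.mem_filter.1 (Finset.mem_inter.1 ht).1).1).1
  have h5 : (A ∩ A').card ≤ ∑ a ∈ range M, hits r U (2 ^ q) (z a) := by
    rw [Finset.card_eq_sum_card_fiberwise hmaps]
    refine Finset.sum_le_sum fun a ha => ?_
    rw [Finset.mem_range] at ha
    unfold hits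
    refine Finset.card_le_card_of_injOn (fun t => t.2) ?_ ?_
    · intro t ht
      simp only [hA, hA', Finset.coe_filter, Finset.mem_inter, Finset.mem_filter,
        Finset.mem_product, Finset.mem_range, Set.mem_ofPred_eq] at ht ⊢
      obtain ⟨⟨⟨⟨-, hjq⟩, ⟨u, hu, w, hw⟩⟩, ⟨-, ⟨u', hu', w', hw'⟩⟩⟩, hta⟩ := ht
      rw [hta] at hw hw'
      refine ⟨hjq, u, hu, u', hu', w' - w, ?_⟩
      have h2r : (0 : ℝ) < 2 ^ r := by positivity
      -- the error term
      have hτ' : |(2 : ℝ) ^ a * 3 ^ t.2 * τ| ≤ 1 / 2 / 2 ^ r := by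
        rw [abs_mul, abs_of_pos (by positivity : (0 : ℝ) < 2 ^ a * 3 ^ t.2), div_div,
          le_div_iff₀ (by positivity)]
        refine le_trans ?_ hτ
        have h8 : (3 : ℝ) ^ t.2 ≤ 3 ^ (2 ^ q) := pow_le_pow_right₀ (by norm_num) hjq.le
        have h9 : (0 : ℝ) ≤ |τ| := abs_nonneg τ
        have h10 : (2 : ℝ) ^ a * (2 * 2 ^ r) ≤ 2 ^ k := by
          rw [← pow_succ', ← pow_add]
          exact pow_le_pow_right₀ (by norm_num) (by omega)
        calc (2 : ℝ) ^ a * 3 ^ t.2 * |τ| * (2 * 2 ^ r) =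
            |τ| * 3 ^ t.2 * (2 ^ a * (2 * 2 ^ r)) := by ring
          _ ≤ |τ| * 3 ^ (2 ^ q) * 2 ^ k := by gcongr
      have hid : z a t.2 - ((w' - w : ℤ) : ℝ) - ((u' : ℝ) - u) / 2 ^ r =
          ((2 : ℝ) ^ a * 3 ^ t.2 * (x + d / 2 ^ k + τ) - w' - (u' + 1 / 2) / 2 ^ r) -
          ((2 : ℝ) ^ a * 3 ^ t.2 * x - w - (u + 1 / 2) / 2 ^ r) - 2 ^ a * 3 ^ t.2 * τ := by
        rw [hz]
        have h11 : (2 : ℝ) ^ k = 2 ^ a * 2 ^ (k - a) := by
          rw [← pow_add]; congr 1; omega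
        rw [h11]
        push_cast
        field_simp
        ring
      rw [hid]
      have h10 : (2 : ℝ) / 2 ^ r = 3 / 4 / 2 ^ r + 3 / 4 / 2 ^ r + 1 / 2 / 2 ^ r := by ring
      rw [h10]
      rw [abs_le] at hw hw' hτ' ⊢
      constructor <;> linarith [hw.1, hw.2, hw'.1, hw'.2, hτ'.1, hτ'.2]
    · intro t ht t' ht' htt
      simp only [Finset.coe_filter, Set.mem_ofPred_eq] at ht ht'
      exact Prod.ext (ht.2.trans ht'.2.symm) htt
  have h6 : 2 * ∑ a ∈ range M, hits r U (2 ^ q) (z a) ≤ M * 2 ^ q := by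
    rw [Finset.mul_sum]
    calc ∑ a ∈ range M, 2 * hits r U (2 ^ q) (z a) ≤ ∑ a ∈ range M, 2 ^ q :=
          Finset.sum_le_sum fun a ha => (h1 a (Finset.mem_range.1 ha)).le
      _ = M * 2 ^ q := by rw [Finset.sum_const, Finset.card_range, smul_eq_mul]
  have h7 : 1 ≤ M * 2 ^ q := Nat.mul_pos (by omega) (by positivity)
  omega

end Pool.Agent.Helper40.TMA
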