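import Mathlib
import Pool.Agent.Helper61.FR.Overlap

/-!
# From large deviations to moving averages, for boxes with a general width
-/

set_option autoImplicit false

open MeasureTheory Finset Filter

namespace Pool.Agent.Helper40.TMA

open Pool.Agent.Helper61.FR

theorem forward_of_summable_gen {μ : Measure ℝ} (h : Inv23 μ) (M : ℕ → ℕ) (q₁ : ℕ)
    (hM1 : ∀ q, q₁ ≤ q → 1 ≤ M q) (hM2 : ∀ q, q₁ ≤ q → M q ≤ 2 ^ q) (m : ℕ)
    (hW : ∀ η : ℝ, 0 < η →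
      Summable fun q : ℕ => (2 ^ q / M q : ℝ) * μ.real (dev μ (M q) (2 ^ q) m η)) :
    ∀ᵐ x ∂μ, ∀ ε : ℝ, 0 < ε → ∃ Q : ℕ, ∀ q, Q ≤ q → ∀ i, i ≤ 2 ^ q →
      ‖avg (M q) (2 ^ q) (fun y => e (m * y)) (2 ^ i * x) - ∫ y, e (m * y) ∂μ‖ ≤ ε := by
  have := h.prob
  have key : ∀ η : ℝ, 0 < η → η ≤ 4 → ∀ᵐ x ∂μ, ∀ᶠ q : ℕ in atTop,
      x ∉ {x | ∃ i, i ≤ 2 ^ q ∧ 2 ^ i * x ∈ dev μ (M q) (2 ^ q) m η} := by
    intro η hη hη4
    apply ae_eventually_notMem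
    have hs : Summable fun q : ℕ =>
        μ.real {x | ∃ i, i ≤ 2 ^ q ∧ 2 ^ i * x ∈ dev μ (M q) (2 ^ q) m η} := by
      have hW' := (hW (η / 2) (by positivity)).mul_left (12 / η)
      rw [← summable_nat_add_iff q₁] at hW' ⊢
      refine Summable.of_nonneg_of_le (fun _ => measureReal_nonneg) (fun q => ?_) hW'
      obtain ⟨Q, hQ⟩ : ∃ Q, Q = q + q₁ := ⟨_, rfl⟩
      rw [← hQ]
      have hMQ := hM1 Q (by omega)
      have hM0 : (0 : ℝ) < M Q := by exact_mod_cast hMQ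
      refine (moving_bad h (M Q) (2 ^ Q) m (2 ^ Q) hMQ Nat.one_le_two_pow (hM2 Q (by omega)) η hη
        hη4).trans ?_
      have hb : 0 ≤ μ.real (dev μ (M Q) (2 ^ Q) m (η / 2)) := measureReal_nonneg
      have h2 : (2 * (2 ^ Q : ℕ) + 1 : ℝ) ≤ 3 * 2 ^ Q := by
        push_cast
        have : (1 : ℝ) ≤ 2 ^ Q := one_le_pow₀ (by norm_num)
        linarith
      calc _ ≤ 4 / (η * M Q) * (3 * 2 ^ Q * μ.real (dev μ (M Q) (2 ^ Q) m (η / 2))) := by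
            gcongr
        _ = 12 / η * ((2 ^ Q / M Q : ℝ) * μ.real (dev μ (M Q) (2 ^ Q) m (η / 2))) := by
            field_simp
            ring
    have h1 := hs.tsum_ofReal_ne_top
    refine ne_of_eq_of_ne (tsum_congr fun q => ?_) h1
    rw [measureReal_def, ENNReal.ofReal_toReal (measure_ne_top μ _)]
  have hall : ∀ᵐ x ∂μ, ∀ k : ℕ, ∀ᶠ q : ℕ in atTop,
      x ∉ {x | ∃ i, i ≤ 2 ^ q ∧ 2 ^ i * x ∈ dev μ (M q) (2 ^ q) m (1 / (k + 1))} := by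
    rw [ae_all_iff]
    intro k
    refine key _ (by positivity) ?_
    rw [div_le_iff₀ (by positivity)]
    have : (0 : ℝ) ≤ k := Nat.cast_nonneg k
    linarith
  filter_upwards [hall] with x hx ε hε
  obtain ⟨k, hk⟩ := exists_nat_one_div_lt hε
  obtain ⟨Q, hQ⟩ := eventually_atTop.mp (hx k)
  refine ⟨Q, fun q hq i hi => ?_⟩
  have h1 := hQ q hq
  by_contra hcon
  push Not at hcon
  exact h1 ⟨i, hi, hk.trans hcon⟩

end Pool.Agent.Helper40.TMA
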