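import Mathlib
import Pool.Agent.Helper40.TMA.CoreW
import Pool.Agent.Helper40.TMA.ForwardGen
import Pool.Agent.Helper40.TMA.SumCircle

/-!
# Moving averages over boxes with a general width: the circle
-/

set_option autoImplicit false

open MeasureTheory Filter Topology Finset
open scoped ENNReal ComplexConjugate

namespace Pool.Agent.Helper40.TMA

open Helper58.FX (ft Erg T)
open Helper58.FH (Bx continuous_Bx integrable_Bx)
open Pool.Agent.Helper61.FR Helper75.DF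

/-- The mean ergodic theorem in measure for the thin boxes. -/
theorem tendsto_dev_of_erg {ν : Measure Tor} [IsProbabilityMeasure ν] {ρ : Measure ℝ}
    (hν : ρ.map (fun y : ℝ => (y : Tor)) = ν)
    (h2 : MeasurePreserving (T 2) ν ν) (h3 : MeasurePreserving (T 3) ν ν) (hE : Erg (ft ν))
    (m : ℕ) (η : ℝ) (hη : 0 < η) :
    Tendsto (fun q : ℕ => ρ.real (dev ρ (q / 200) (2 ^ q) m η)) atTop (nhds 0) := by
  rw [Metric.tendsto_atTop]
  intro δ hδ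
  obtain ⟨K, hK⟩ := box_averages h2 h3 hE m (δ / 2 * η ^ 2) (by positivity)
  refine ⟨200 * K + 200, fun q hq => ?_⟩
  have h6 : K ≤ 2 ^ q := by
    have : q < 2 ^ q := Nat.lt_two_pow_self
    omega
  have h5 := mul_meas_ge_le_integral_of_nonneg (μ := ν)
    (f := fun x => ‖Bx m (q / 200) (2 ^ q) x - ft ν m‖ ^ 2)
    (Eventually.of_forall fun x => by positivity)
    (integrable_Bx m (q / 200) (2 ^ q) (ft ν m)) (η ^ 2)
  have h7 := hK (q / 200) (2 ^ q) (by omega) h6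
  have h8 : ρ.real (dev ρ (q / 200) (2 ^ q) m η) ≤
      ν.real {x | η ^ 2 ≤ ‖Bx m (q / 200) (2 ^ q) x - ft ν m‖ ^ 2} := by
    rw [← real_dev_eq hν]
    refine measureReal_mono ?_ (measure_ne_top _ _)
    intro x hx
    have hx' : η < ‖cavg (q / 200) (2 ^ q) m x - ∫ y, (fourier (m : ℤ) y : ℂ) ∂ν‖ := hx
    rw [cavg_eq_Bx] at hx'
    have hx2 : η < ‖Bx m (q / 200) (2 ^ q) x - ft ν m‖ := hx'
    show η ^ 2 ≤ ‖Bx m (q / 200) (2 ^ q) x - ft ν m‖ ^ 2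
    gcongr
  have h9 : 0 < η ^ 2 := by positivity
  have h10 : ν.real {x | η ^ 2 ≤ ‖Bx m (q / 200) (2 ^ q) x - ft ν m‖ ^ 2} ≤ δ / 2 := by
    have h11 := h5.trans h7
    by_contra hcon
    push Not at hcon
    nlinarith
  rw [Real.dist_eq, sub_zero, abs_of_nonneg measureReal_nonneg]
  linarith

/-- **Moving averages over boxes with a general width**, on the circle. -/
theorem circle_window {ν : Measure Tor} [IsProbabilityMeasure ν]
    (h2 : MeasurePreserving (fun x : Tor => (2 : ℕ) • x) ν ν)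
    (h3 : MeasurePreserving (fun x : Tor => (3 : ℕ) • x) ν ν) (hE : Erg (ft ν))
    (h0 : ∀ x, ν {x} = 0) (W : ℕ → ℕ) (hW : Window W) (M : ℕ → ℕ) (hM : Fits M W)
    (hF : ∀ m : ℕ, 1 ≤ m → ∀ᵐ x ∂ν, Moving M m (∫ y, (fourier m y : ℂ) ∂ν) x)
    (m : ℕ) (hm : 1 ≤ m) : ∫ x, (fourier m x : ℂ) ∂ν = 0 := by
  obtain ⟨μ, hμ, hν, hat⟩ := exists_inv23 ν h2 h3
  have hc : ∀ m : ℕ, ∫ x, (fourier m x : ℂ) ∂ν = ∫ y, e (m * y) ∂μ := by
    intro m
    rw [integral_fourier_eq hν (m : ℤ)]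
    unfold cf
    push_cast
    rfl
  have := core_window hμ (hat h0) (fun m _ η hη => tendsto_dev_of_erg hν h2 h3 hE m η hη) W hW M hM
    (fun m hm => by
      have h4 := (ae_moving_iff hν M m _).mp (hF m hm)
      rw [hc m] at h4
      exact h4) m hm
  rw [hc m]
  exact this

theorem circle_moving_gen {ν : Measure Tor} [IsProbabilityMeasure ν]
    (h2 : MeasurePreserving (fun x : Tor => (2 : ℕ) • x) ν ν)
    (h3 : MeasurePreserving (fun x : Tor => (3 : ℕ) • x) ν ν) (M : ℕ → ℕ) (q₁ : ℕ)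
    (hM1 : ∀ q, q₁ ≤ q → 1 ≤ M q) (hM2 : ∀ q, q₁ ≤ q → M q ≤ 2 ^ q) (m : ℕ)
    (hW : ∀ η : ℝ, 0 < η → Summable fun q : ℕ => (2 ^ q / M q : ℝ) *
      ν.real {x | η < ‖cavg (M q) (2 ^ q) m x - ∫ y, (fourier m y : ℂ) ∂ν‖}) :
    ∀ᵐ x ∂ν, Moving M m (∫ y, (fourier m y : ℂ) ∂ν) x := by
  obtain ⟨μ, hμ, hν, -⟩ := exists_inv23 ν h2 h3
  rw [ae_moving_iff hν]
  have hc : ∫ x, (fourier m x : ℂ) ∂ν = ∫ y, e (m * y) ∂μ := by
    rw [integral_fourier_eq hν (m : ℤ)]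
    unfold cf
    push_cast
    rfl
  rw [hc]
  refine forward_of_summable_gen hμ M q₁ hM1 hM2 m fun η hη => ?_
  have := hW η hη
  simp only [real_dev_eq hν] at this
  exact this

/-- Lebesgue measure satisfies the large deviation bound. -/
theorem summable_lebesgue_gen {ν : Measure Tor} [IsProbabilityMeasure ν]
    (h2 : MeasurePreserving (fun x : Tor => (2 : ℕ) • x) ν ν)
    (h3 : MeasurePreserving (fun x : Tor => (3 : ℕ) • x) ν ν)
    (hL : ∀ m : ℕ, 1 ≤ m → ∫ y, (fourier (m : ℤ) y : ℂ) ∂ν = 0) (M : ℕ → ℕ) (q₁ : ℕ)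
    (hM1 : ∀ q, q₁ ≤ q → 1 ≤ M q) (C : ℝ) (hM2 : ∀ q, q₁ ≤ q → (q : ℝ) ≤ C * M q)
    (m : ℕ) (hm : 1 ≤ m) (η : ℝ) (hη : 0 < η) :
    Summable fun q : ℕ => (2 ^ q / M q : ℝ) *
      ν.real {x | η < ‖cavg (M q) (2 ^ q) m x - ∫ y, (fourier (m : ℤ) y : ℂ) ∂ν‖} := by
  obtain ⟨ρ, hρ, hν, -⟩ := exists_inv23 ν h2 h3
  have hs : Summable fun q : ℕ => (C ^ 2 / η ^ 2) * (1 / (q : ℝ) ^ 2) :=
    (Real.summable_one_div_nat_pow.mpr (by norm_num)).mul_left _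
  rw [← summable_nat_add_iff (q₁ + 1)] at hs ⊢
  refine Summable.of_nonneg_of_le (fun _ => by positivity) (fun q => ?_) hs
  obtain ⟨Q, hQ⟩ : ∃ Q, Q = q + (q₁ + 1) := ⟨_, rfl⟩
  rw [← hQ]
  have hMQ := hM1 Q (by omega)
  have hM0 : (0 : ℝ) < M Q := by exact_mod_cast hMQ
  have hQ0 : (0 : ℝ) < Q := by exact_mod_cast (by omega : 0 < Q)
  have hint : Integrable (fun x => ‖cavg (M Q) (2 ^ Q) m x -
      ∫ y, (fourier (m : ℤ) y : ℂ) ∂ν‖ ^ 2) ν := by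
    refine Helper17.TranslM.integrable_cont ν ?_
    exact (((continuous_cavg _ _ _).sub continuous_const).norm).pow 2
  have h1 := mul_meas_ge_le_integral_of_nonneg
    (Eventually.of_forall fun x => by positivity) hint (η ^ 2)
  rw [integral_var_eq hν, variance_lebesgue hρ (cf_of_all_zero hν hL) (M Q) (2 ^ Q) m
    hMQ Nat.one_le_two_pow hm] at h1
  have h4 : ν.real {x | η < ‖cavg (M Q) (2 ^ Q) m x - ∫ y, (fourier (m : ℤ) y : ℂ) ∂ν‖} ≤
      ν.real {x | η ^ 2 ≤ ‖cavg (M Q) (2 ^ Q) m x - ∫ y, (fourier (m : ℤ) y : ℂ) ∂ν‖ ^ 2} := by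
    refine measureReal_mono ?_ (measure_ne_top _ _)
    intro x hx
    have hx' : η < ‖cavg (M Q) (2 ^ Q) m x - ∫ y, (fourier (m : ℤ) y : ℂ) ∂ν‖ := hx
    show η ^ 2 ≤ ‖cavg (M Q) (2 ^ Q) m x - ∫ y, (fourier (m : ℤ) y : ℂ) ∂ν‖ ^ 2
    gcongr
  have h5 : ν.real {x | η < ‖cavg (M Q) (2 ^ Q) m x - ∫ y, (fourier (m : ℤ) y : ℂ) ∂ν‖} ≤
      1 / (η ^ 2 * (M Q * 2 ^ Q)) := by
    rw [le_div_iff₀ (by positivity)]
    push_cast at h1
    have h6 := (mul_le_mul_of_nonneg_left h4 (by positivity : 0 ≤ η ^ 2)).trans h1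
    rw [le_div_iff₀ (by positivity)] at h6
    linarith
  have h7 := hM2 Q (by omega)
  calc (2 ^ Q / M Q : ℝ) *
      ν.real {x | η < ‖cavg (M Q) (2 ^ Q) m x - ∫ y, (fourier (m : ℤ) y : ℂ) ∂ν‖}
      ≤ (2 ^ Q / M Q : ℝ) * (1 / (η ^ 2 * (M Q * 2 ^ Q))) := by gcongr
    _ = 1 / (η ^ 2 * (M Q : ℝ) ^ 2) := by field_simp
    _ ≤ (C ^ 2 / η ^ 2) * (1 / (Q : ℝ) ^ 2) := by
        rw [div_mul_div_comm, mul_one, div_le_div_iff₀ (by positivity) (by positivity)]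
        have h8 : (Q : ℝ) ^ 2 ≤ (C * M Q) ^ 2 := pow_le_pow_left₀ hQ0.le h7 2
        have h9 : 0 ≤ η ^ 2 := by positivity
        nlinarith

/-- A finitely supported ergodic measure satisfies the large deviation bound. -/
theorem summable_finite_gen {ν : Measure Tor} [IsProbabilityMeasure ν]
    (h2 : MeasurePreserving (fun x : Tor => (2 : ℕ) • x) ν ν)
    (h3 : MeasurePreserving (fun x : Tor => (3 : ℕ) • x) ν ν) (hE : Erg (ft ν))
    (Z : Set Tor) (hZ : Z.Finite) (hνZ : ν Zᶜ = 0) (M : ℕ → ℕ)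
    (hM : Tendsto M atTop atTop) (m : ℕ) (η : ℝ) (hη : 0 < η) :
    Summable fun q : ℕ => (2 ^ q / M q : ℝ) *
      ν.real {x | η < ‖cavg (M q) (2 ^ q) m x - ∫ y, (fourier (m : ℤ) y : ℂ) ∂ν‖} := by
  obtain ⟨K, hK⟩ := null_of_finite h2 h3 hE Z hZ hνZ m η hη
  obtain ⟨Q, hQ⟩ := eventually_atTop.mp (hM.eventually_ge_atTop K)
  rw [← summable_nat_add_iff (Q + K)]
  refine summable_zero.congr fun q => ?_
  have h5 : K ≤ M (q + (Q + K)) := hQ _ (by omega)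
  have h6 : K ≤ 2 ^ (q + (Q + K)) := by
    have : q + (Q + K) < 2 ^ (q + (Q + K)) := Nat.lt_two_pow_self
    omega
  have h7 := hK _ _ h5 h6
  simp only [cavg_eq_Bx, Measure.real]
  have h8 : ∫ y, (fourier (m : ℤ) y : ℂ) ∂ν = ft ν m := rfl
  rw [h8, h7]
  simp

end Pool.Agent.Helper40.TMA
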