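import Mathlib
import Pool.Agent.Helper40.TMA.Defs

/-!
# Thin moving averages: a summability condition, and Lebesgue measure
-/

set_option autoImplicit false

open MeasureTheory Finset Filter

namespace Pool.Agent.Helper40.TMA

open Pool.Agent.Helper61.FR

/-- the averages over the boxes at `2 x` and at `x` differ by at most `2 / M`. -/
theorem norm_avg_two_mul_sub (M N m : ℕ) (hM : 1 ≤ M) (hN : 1 ≤ N) (x : ℝ) :
    ‖avg M N (fun y => e (m * y)) (2 * x) - avg M N (fun y => e (m * y)) x‖ ≤ 2 / M := by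
  set g : ℕ → ℂ := fun i => ∑ k ∈ range N, e (m * (2 ^ i * 3 ^ k * x)) with hg
  have h1 : avg M N (fun y => e (m * y)) (2 * x) = (∑ i ∈ range M, g (i + 1)) / (M * N) := by
    unfold avg
    congr 1
    refine sum_congr rfl fun i _ => sum_congr rfl fun k _ => ?_
    congr 1
    ring
  have h2 : avg M N (fun y => e (m * y)) x = (∑ i ∈ range M, g i) / (M * N) := rfl
  have h3 : ∑ i ∈ range M, g (i + 1) - ∑ i ∈ range M, g i = g M - g 0 := by
    rw [← sum_sub_distrib]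
    exact Finset.sum_range_sub g M
  have h4 : ∀ i, ‖g i‖ ≤ N := by
    intro i
    refine (norm_sum_le _ _).trans ?_
    simp only [norm_e]
    simp
  have hM0 : (0 : ℝ) < M := by exact_mod_cast hM
  have hN0 : (0 : ℝ) < N := by exact_mod_cast hN
  rw [h1, h2, ← sub_div, h3, norm_div]
  have h5 : ‖((M : ℂ) * N)‖ = M * N := by
    rw [norm_mul, Complex.norm_natCast, Complex.norm_natCast]
  rw [h5, div_le_div_iff₀ (by positivity) hM0]
  have h6 : ‖g M - g 0‖ ≤ 2 * N := by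
    refine (norm_sub_le _ _).trans ?_
    linarith [h4 M, h4 0]
  nlinarith

theorem norm_avg_two_pow_mul_sub (M N m : ℕ) (hM : 1 ≤ M) (hN : 1 ≤ N) (a : ℕ) (x : ℝ) :
    ‖avg M N (fun y => e (m * y)) (2 ^ a * x) - avg M N (fun y => e (m * y)) x‖ ≤ 2 * a / M := by
  have hM0 : (0 : ℝ) < M := by exact_mod_cast hM
  induction a with
  | zero => simp
  | succ a ih =>
    have h1 := norm_avg_two_mul_sub M N m hM hN (2 ^ a * x)
    have h2 : (2 : ℝ) ^ (a + 1) * x = 2 * (2 ^ a * x) := by ring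
    rw [h2]
    have h3 := norm_add_le (avg M N (fun y => e (m * y)) (2 * (2 ^ a * x)) -
      avg M N (fun y => e (m * y)) (2 ^ a * x)) (avg M N (fun y => e (m * y)) (2 ^ a * x) -
      avg M N (fun y => e (m * y)) x)
    rw [sub_add_sub_cancel] at h3
    refine h3.trans ?_
    push_cast
    have h4 : 2 * ((a : ℝ) + 1) / M = 2 / M + 2 * a / M := by ring
    rw [h4]
    linarith

/-- If the average at `x` deviates by more than `ε` and `2 a ≤ (ε / 2) M`, then the average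
at `2 ^ a x` deviates by more than `ε / 2`. -/
theorem mem_dev_half (μ : Measure ℝ) (M N m : ℕ) (hM : 1 ≤ M) (hN : 1 ≤ N) (a : ℕ) (x ε : ℝ)
    (ha : 2 * a ≤ ε / 2 * M) (hx : x ∈ dev μ M N m ε) : (2 : ℝ) ^ a * x ∈ dev μ M N m (ε / 2) := by
  have hM0 : (0 : ℝ) < M := by exact_mod_cast hM
  have h1 := norm_avg_two_pow_mul_sub M N m hM hN a x
  have h2 : 2 * (a : ℝ) / M ≤ ε / 2 := by
    rw [div_le_iff₀ hM0]; exact ha
  have h3 : ε < ‖avg M N (fun y => e (m * y)) x - ∫ y, e (m * y) ∂μ‖ := hx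
  show ε / 2 < ‖avg M N (fun y => e (m * y)) (2 ^ a * x) - ∫ y, e (m * y) ∂μ‖
  have h4 := norm_add_le (avg M N (fun y => e (m * y)) x -
      avg M N (fun y => e (m * y)) (2 ^ a * x))
      (avg M N (fun y => e (m * y)) (2 ^ a * x) - ∫ y, e (m * y) ∂μ)
  rw [sub_add_sub_cancel, norm_sub_rev] at h4
  rw [norm_sub_rev] at h4
  have h5 := norm_sub_rev (avg M N (fun y => e (m * y)) x)
    (avg M N (fun y => e (m * y)) (2 ^ a * x))
  have h6 := norm_sub_rev (avg M N (fun y => e (m * y)) x) (∫ y, e (m * y) ∂μ)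
  linarith

/-- the bad event at one scale -/
theorem real_block_le {μ : Measure ℝ} (h : Inv23 μ) (M N m : ℕ) (hM : 1 ≤ M) (hN : 1 ≤ N)
    (ε : ℝ) (hε : 0 < ε) (n B : ℕ) (hB : B ≤ n) :
    μ.real {x : ℝ | ∃ i, i ≤ B ∧ (2 : ℝ) ^ (n - i) * x ∈ dev μ M N m ε} ≤
      (4 * B / (ε * M) + 1) * μ.real (dev μ M N m (ε / 2)) := by
  have := h.prob
  have hM0 : (0 : ℝ) < M := by exact_mod_cast hM
  -- the spacing
  obtain ⟨t, ht1, ht2, ht3⟩ : ∃ t : ℕ, 1 ≤ t ∧ 2 * ((t - 1 : ℕ) : ℝ) ≤ ε / 2 * M ∧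
      ε * M / 4 ≤ t := by
    refine ⟨⌊ε * M / 4⌋₊ + 1, by omega, ?_, ?_⟩
    · have := Nat.floor_le (by positivity : 0 ≤ ε * M / 4)
      rw [Nat.add_sub_cancel]
      linarith
    · have := Nat.lt_floor_add_one (ε * M / 4)
      push_cast
      linarith
  have ht0 : (0 : ℝ) < t := by exact_mod_cast ht1
  have hsub : {x : ℝ | ∃ i, i ≤ B ∧ (2 : ℝ) ^ (n - i) * x ∈ dev μ M N m ε} ⊆
      ⋃ l ∈ range (B / t + 1), {x : ℝ | (2 : ℝ) ^ (n - t * l) * x ∈ dev μ M N m (ε / 2)} := by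
    rintro x ⟨i, hi, hx⟩
    rw [Set.mem_iUnion₂]
    refine ⟨i / t, ?_, ?_⟩
    · rw [Finset.mem_range]
      have := Nat.div_le_div_right (c := t) hi
      omega
    · show (2 : ℝ) ^ (n - t * (i / t)) * x ∈ dev μ M N m (ε / 2)
      have h1 := Nat.div_add_mod i t
      have h2 := Nat.mod_lt i (show 0 < t by omega)
      have h3 : n - t * (i / t) = (i % t) + (n - i) := by omega
      rw [h3, pow_add, mul_assoc]
      refine mem_dev_half μ M N m hM hN (i % t) _ ε ?_ hx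
      refine le_trans ?_ ht2
      have h4 : i % t ≤ t - 1 := by omega
      have h5 : ((i % t : ℕ) : ℝ) ≤ ((t - 1 : ℕ) : ℝ) := by exact_mod_cast h4
      linarith
  calc μ.real {x : ℝ | ∃ i, i ≤ B ∧ (2 : ℝ) ^ (n - i) * x ∈ dev μ M N m ε}
      ≤ μ.real (⋃ l ∈ range (B / t + 1),
        {x : ℝ | (2 : ℝ) ^ (n - t * l) * x ∈ dev μ M N m (ε / 2)}) :=
        measureReal_mono hsub (measure_ne_top μ _)
    _ ≤ ∑ l ∈ range (B / t + 1), μ.real {x : ℝ | (2 : ℝ) ^ (n - t * l) * x ∈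
        dev μ M N m (ε / 2)} := measureReal_biUnion_finset_le _ _
    _ = ((B / t + 1 : ℕ) : ℝ) * μ.real (dev μ M N m (ε / 2)) := by
        rw [sum_congr rfl fun l _ => real_mul_dev h M N m (ε / 2) (n - t * l), sum_const,
          card_range, nsmul_eq_mul]
    _ ≤ (4 * B / (ε * M) + 1) * μ.real (dev μ M N m (ε / 2)) := by
        refine mul_le_mul_of_nonneg_right ?_ measureReal_nonneg
        push_cast
        have h1 : ((B / t : ℕ) : ℝ) ≤ (B : ℝ) / t := Nat.cast_div_le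
        have h2 : (B : ℝ) / t ≤ B / (ε * M / 4) := by
          apply div_le_div_of_nonneg_left (by positivity) (by positivity) ht3
        have h3 : (B : ℝ) / (ε * M / 4) = 4 * B / (ε * M) := by
          field_simp
        linarith

/-- **Summable deviations imply convergence of the thin moving averages.** -/
theorem tma_of_summable {μ : Measure ℝ} (h : Inv23 μ) (M : ℕ → ℕ)
    (hM1 : ∀ q, 200 ≤ q → 1 ≤ M q) (hM2 : ∀ q, 200 ≤ q → q ≤ 400 * M q)
    (hW : ∀ m : ℕ, 1 ≤ m → ∀ η : ℝ, 0 < η →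
      Summable fun q : ℕ => (2 ^ q / q : ℝ) * μ.real (dev μ (M q) (2 ^ q) m η)) :
    TMA μ M := by
  intro m hm ε hε
  have := h.prob
  have hWs := hW m hm (ε / 2) (by positivity)
  set F : ℕ → ℝ := fun q => (2 ^ q / q : ℝ) * μ.real (dev μ (M q) (2 ^ q) m (ε / 2)) with hF
  have hF0 : ∀ q, 0 ≤ F q := fun q => by positivity
  -- the constant
  set C : ℝ := 9600 / ε + 1 with hC
  have hC0 : 0 < C := by positivity
  have htail : ∃ N : ℕ, ∀ q₀, N ≤ q₀ → ∀ Q, ∑ q ∈ Icc q₀ Q, F q ≤ ε / C := by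
    have ht := hWs.hasSum.tendsto_sum_nat
    obtain ⟨N, hN⟩ := (Metric.tendsto_atTop.mp ht) (ε / C) (by positivity)
    refine ⟨N, fun q₀ hq Q => ?_⟩
    rcases lt_or_ge Q q₀ with h | h
    · rw [Icc_eq_empty (by omega), sum_empty]; positivity
    have hIcc : Icc q₀ Q = Ico q₀ (Q + 1) := by
      ext a
      simp only [Finset.mem_Icc, Finset.mem_Ico]
      omega
    rw [hIcc, sum_Ico_eq_sub _ (by omega)]
    have h1 : ∑ i ∈ range (Q + 1), F i ≤ ∑' i, F i := hWs.sum_le_tsum _ (fun i _ => hF0 i)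
    have h2 := hN q₀ hq
    rw [Real.dist_eq, abs_lt] at h2
    linarith [h2.1]
  obtain ⟨N, hN⟩ := htail
  refine ⟨N + 200, fun Q => ?_⟩
  have hsub : badEvent μ M m ε (N + 200) Q ⊆ ⋃ q ∈ Icc (N + 200) Q,
      {x : ℝ | ∃ i, i ≤ 3 * 2 ^ (q + 1) ∧
        (2 : ℝ) ^ (3 * 2 ^ (Q + 1) - i) * x ∈ dev μ (M q) (2 ^ q) m ε} := by
    rintro x ⟨q, h1, h2, i, h3, h4, h5⟩
    rw [Set.mem_iUnion₂]
    exact ⟨q, Finset.mem_Icc.2 ⟨h1, h2⟩, i, h4, h5⟩
  calc μ.real (badEvent μ M m ε (N + 200) Q)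
      ≤ μ.real (⋃ q ∈ Icc (N + 200) Q, {x : ℝ | ∃ i, i ≤ 3 * 2 ^ (q + 1) ∧
        (2 : ℝ) ^ (3 * 2 ^ (Q + 1) - i) * x ∈ dev μ (M q) (2 ^ q) m ε}) :=
        measureReal_mono hsub (measure_ne_top μ _)
    _ ≤ ∑ q ∈ Icc (N + 200) Q, μ.real {x : ℝ | ∃ i, i ≤ 3 * 2 ^ (q + 1) ∧
        (2 : ℝ) ^ (3 * 2 ^ (Q + 1) - i) * x ∈ dev μ (M q) (2 ^ q) m ε} :=
        measureReal_biUnion_finset_le _ _
    _ ≤ ∑ q ∈ Icc (N + 200) Q, C * F q := by
        refine sum_le_sum fun q hq => ?_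
        rw [Finset.mem_Icc] at hq
        have hq200 : 200 ≤ q := by omega
        have hMq := hM1 q hq200
        have hMq2 := hM2 q hq200
        refine (real_block_le h (M q) (2 ^ q) m hMq Nat.one_le_two_pow ε hε (3 * 2 ^ (Q + 1))
          (3 * 2 ^ (q + 1)) (by
            have : 2 ^ (q + 1) ≤ 2 ^ (Q + 1) := Nat.pow_le_pow_right (by norm_num) (by omega)
            omega)).trans ?_
        rw [hF]
        simp only
        rw [← mul_assoc]
        refine mul_le_mul_of_nonneg_right ?_ measureReal_nonneg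
        have hq0 : (0 : ℝ) < q := by exact_mod_cast (by omega : 0 < q)
        have hM0 : (0 : ℝ) < M q := by exact_mod_cast hMq
        have h2q : (q : ℝ) ≤ 2 ^ q := by exact_mod_cast Nat.lt_two_pow_self.le
        have h1 : (1 : ℝ) ≤ 2 ^ q / q := by rw [one_le_div hq0]; exact h2q
        have h3 : (4 * ((3 * 2 ^ (q + 1) : ℕ) : ℝ)) / (ε * M q) ≤ 9600 / ε * (2 ^ q / q) := by
          have h4 : (q : ℝ) ≤ 400 * M q := by exact_mod_cast hMq2
          push_cast
          rw [pow_succ, div_mul_div_comm, div_le_div_iff₀ (by positivity) (by positivity)]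
          have h5 : 0 ≤ (2 : ℝ) ^ q * ε := by positivity
          nlinarith
        rw [hC]
        nlinarith
    _ = C * ∑ q ∈ Icc (N + 200) Q, F q := by rw [mul_sum]
    _ ≤ C * (ε / C) := by
        refine mul_le_mul_of_nonneg_left (hN (N + 200) (by omega) Q) hC0.le
    _ = ε := by field_simp

end Pool.Agent.Helper40.TMA
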