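import Mathlib
import Pool.Agent.Helper40.TMA.Lebesgue
import Pool.Agent.Helper40.TMA.Summable
import Pool.Agent.Helper61.FR.St.P11

/-!
# The thin moving averages converge for Lebesgue measure
-/

set_option autoImplicit false

open MeasureTheory Finset Filter

namespace Pool.Agent.Helper40.TMA

open Pool.Agent.Helper61.FR

/-- **The thin moving averages converge for Lebesgue measure.** -/
theorem tma_lebesgue {μ : Measure ℝ} (h : Inv23 μ)
    (hL : ∀ m : ℕ, 1 ≤ m → ∫ y, e (m * y) ∂μ = 0) : TMA μ (fun q => q / 200) := by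
  have := h.prob
  have hL' : ∀ n : ℤ, n ≠ 0 → cf μ n = 0 := by
    intro n hn
    rcases lt_or_gt_of_ne hn with hn | hn
    · have h1 := cf_neg μ (-n)
      rw [neg_neg] at h1
      have h2 : cf μ (-n) = 0 := by
        have h3 := hL (-n).toNat (by omega)
        unfold cf
        have h4 : ((-n : ℤ) : ℝ) = (((-n).toNat : ℕ) : ℝ) := by
          have h5 : (((-n).toNat : ℕ) : ℤ) = -n := Int.toNat_of_nonneg (by omega)
          rw [← h5]
          push_cast
          rfl
        rw [h4]
        exact h3
      rw [h1, h2, star_zero]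
    · have h3 := hL n.toNat (by omega)
      unfold cf
      have h4 : ((n : ℤ) : ℝ) = ((n.toNat : ℕ) : ℝ) := by
        have h5 : ((n.toNat : ℕ) : ℤ) = n := Int.toNat_of_nonneg (by omega)
        rw [← h5]
        push_cast
        rfl
      rw [h4]
      exact h3
  refine tma_of_summable h _ (fun q hq => by omega) (fun q hq => by omega) ?_
  intro m hm η hη
  refine summable_dev h (fun q => q / 200) m 400 1 one_pos ?_ η hη
  intro q hq
  rw [variance_lebesgue h hL' (q / 200) (2 ^ q) m (by omega) Nat.one_le_two_pow hm]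
  rw [Real.rpow_one]
  have hq0 : (0 : ℝ) < q := by exact_mod_cast (by omega : 0 < q)
  have hM0 : (0 : ℝ) < ((q / 200 : ℕ) : ℝ) := by exact_mod_cast (by omega : 0 < q / 200)
  have h1 : (q : ℝ) ≤ 400 * ((q / 200 : ℕ) : ℝ) := by exact_mod_cast (by omega : q ≤ 400 * (q / 200))
  rw [div_le_div_iff₀ (by positivity) (by positivity)]
  push_cast
  have h2 : (0 : ℝ) < 2 ^ q := by positivity
  nlinarith

end Pool.Agent.Helper40.TMA
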