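import Mathlib
import Pool.Agent.Helper40.TMA.TraceBase
import Pool.Agent.Helper40.TMA.CircleForm
import Pool.Agent.Helper63.FX.ExLikeOf

/-!
# Thin moving averages and extreme traces
-/

set_option autoImplicit false

open MeasureTheory Filter Topology Finset Helper17.FU Helper17.FUGroup Helper91.TTT
open scoped ENNReal ComplexConjugate ComplexOrder InnerProductSpace

namespace Pool.Agent.Helper40.TMA

open Helper58.FX (ft Erg T)
open Pool.Agent.Helper61.FR

variable {s2 s3 t : Equiv.Perm ℚ}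

/-- **The characterisation of the known extreme traces by moving averages.** -/
theorem trace_iff (h2 : ∀ x : ℚ, s2 x = 2 * x) (h3 : ∀ x : ℚ, s3 x = 3 * x)
    (ht : ∀ x : ℚ, t x = x + 1) {τ : GG s2 s3 t} (hτ : (τ : Equiv.Perm ℚ) = t)
    {φ : GG s2 s3 t → ℂ} (hφ : φ ∈ Set.extremePoints ℝ (TR (GG s2 s3 t)))
    {μ : Measure Tor} [IsProbabilityMeasure μ]
    (hμ : ∀ n : ℤ, ∫ x, (fourier n x : ℂ) ∂μ = φ (τ ^ n))
    (hm2 : MeasurePreserving (fun x : Tor => (2 : ℕ) • x) μ μ)
    (hm3 : MeasurePreserving (fun x : Tor => (3 : ℕ) • x) μ μ) :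
    CMoving μ ↔ (φ = Set.indicator ({1} : Set (GG s2 s3 t)) (fun _ => (1 : ℂ)) ∨
      FiniteDimensional ℂ (Submodule.span ℂ {F : GG s2 s3 t → ℂ | ∃ n : GG s2 s3 t,
        IsTr n ∧ F = fun x => φ (n * x)})) := by
  constructor
  · intro hM
    by_contra hcon
    push Not at hcon
    obtain ⟨hΔ, hfd⟩ := hcon
    have hex := Helper63.FX.exlike_of_exotic h2 h3 ht hτ hφ hΔ hfd
    obtain ⟨ν, hνp, hν, -, -, hat⟩ := hex.rep
    have hνμ : ν = μ := by
      apply Helper17.TranslM.eq_of_fourier
      intro m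
      rw [hμ m]
      exact hν m
    rw [hνμ] at hat
    have hz := lebesgue_of_cmoving hm2 hm3 hat hM
    obtain ⟨n, hn, hφn⟩ := hex.ne
    apply hφn
    show φ (τ ^ n) = 0
    rw [← hμ n]
    rcases lt_or_gt_of_ne hn with h | h
    · have h5 := hz (-n).toNat (by omega)
      rw [show (((-n).toNat : ℕ) : ℤ) = -n by omega] at h5
      have h6 : ∫ x, (fourier n x : ℂ) ∂μ = star (∫ x, (fourier (-n) x : ℂ) ∂μ) := by
        rw [RCLike.star_def, ← integral_conj]
        refine integral_congr_ae (Eventually.of_forall fun x => ?_)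
        simp only [fourier_neg, RingHomCompTriple.comp_apply, RingHom.id_apply]
      rw [h6, h5, star_zero]
    · have h5 := hz n.toNat (by omega)
      rwa [show ((n.toNat : ℕ) : ℤ) = n by omega] at h5
  · rintro (hΔ | hfd)
    · refine cmoving_lebesgue hm2 hm3 fun m hm => ?_
      rw [hμ, hΔ, Set.indicator_of_notMem]
      intro h
      have h5 : (τ : Equiv.Perm ℚ) ^ (m : ℤ) = 1 := by
        rw [← Subgroup.coe_zpow, show τ ^ (m : ℤ) = 1 from h, Subgroup.coe_one]
      have h6 := congrArg (fun f : Equiv.Perm ℚ => f 0) h5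
      simp only [hτ] at h6
      rw [t_zpow ht] at h6
      simp only [Equiv.Perm.coe_one, id] at h6
      have : (m : ℚ) = 0 := by push_cast at h6; linarith
      have h7 : m = 0 := by exact_mod_cast this
      omega
    · obtain ⟨d, c, hc, hrec⟩ := exists_recurrence hτ ht hfd
      obtain ⟨Z, hZ, hZ'⟩ := finite_support μ d c hc (fun m => by
        rw [← hrec m]
        refine Finset.sum_congr rfl fun j _ => ?_
        congr 1
        exact hμ _)
      exact cmoving_finite hm2 hm3 (erg_of_extreme h2 h3 ht hτ hφ hμ) Z hZ hZ'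

end Pool.Agent.Helper40.TMA
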